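import Pool.Agent.V2450.WM.Core

/-!
# The weight moment is determined by the characteristic polynomials and the Betti numbers
-/

set_option autoImplicit false

open Module Polynomial

namespace Pool.Agent.V2450.WM

universe u v w

open Pool.Agent.Y143 Pool.Agent.Y163.MW Pool.Agent.Y163.MX

theorem algC : @Algebra.IsAlgebraic ℚ (AlgebraicClosure ℚ) _ _ DivisionRing.toRatAlgebra := by
  have h := AlgebraicClosure.isAlgebraic ℚ
  have e : (AlgebraicClosure.instAlgebra ℚ : Algebra ℚ (AlgebraicClosure ℚ)) =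
    DivisionRing.toRatAlgebra := Subsingleton.elim _ _
  rw [← e]
  exact h

/-- The sum of the values of a function at the weights of the roots of a rational polynomial. -/
noncomputable def wsum (q : ℕ) (P : ℚ[X]) (φ : ℤ → ℝ) : ℝ :=
  ((P.map (algebraMap ℚ (AlgebraicClosure ℚ))).roots.map
    (fun z => φ (Coh.wtf q z))).sum

/-- The sum of the squares of the weights of the roots of a rational polynomial. -/
noncomputable def wsq (q : ℕ) (P : ℚ[X]) : ℝ := wsum q P (fun w => (w : ℝ) ^ 2)

section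

variable {Ω : Type w} [Field Ω] [CharZero Ω]

lemma wtf_map (q : ℕ) (i : AlgebraicClosure ℚ →ₐ[ℚ] Ω) (z : AlgebraicClosure ℚ) :
    Coh.wtf q (i z) = Coh.wtf q z := by
  have h1 : minpoly ℚ (i z) = minpoly ℚ z := minpoly.algHom_eq i i.toRingHom.injective z
  have h2 : ∀ w : ℤ, IsWeilNumber q w (i z) = IsWeilNumber q w z := by
    intro w
    apply propext
    unfold IsWeilNumber
    rw [h1]
    have h3 : IsAlgebraic ℚ z := algC.isAlgebraic z
    have h4 : IsAlgebraic ℚ (i z) := h3.algHom i
    simp only [h3, h4, true_and]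
  have h3 : (fun w : ℤ => IsWeilNumber q w (i z)) = fun w : ℤ => IsWeilNumber q w z :=
    funext h2
  have key : ∀ A B : ℤ → Prop, A = B → ∀ (dA : Decidable (∃ w, A w)) (dB : Decidable (∃ w, B w)),
      (@dite ℤ (∃ w, A w) dA (fun h => h.choose) (fun _ => 0)) =
      (@dite ℤ (∃ w, B w) dB (fun h => h.choose) (fun _ => 0)) := by
    intro A B hAB dA dB
    subst hAB
    congr 1
  exact key _ _ h3 _ _

lemma finsum_roots {f : Polynomial Ω} (hf : f ≠ 0) (g : Ω → ℝ) :
    ∑ᶠ α : Ω, g α * (f.rootMultiplicity α : ℝ) = (f.roots.map g).sum := by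
  classical
  rw [Finset.sum_multiset_map_count]
  rw [finsum_eq_sum_of_support_subset (s := f.roots.toFinset)]
  · refine Finset.sum_congr rfl fun α _ => ?_
    rw [nsmul_eq_mul, Polynomial.count_roots, mul_comm]
  · intro α hα
    rw [Finset.mem_coe, Multiset.mem_toFinset, ← Multiset.count_ne_zero, Polynomial.count_roots]
    intro h0
    apply hα
    simp only
    rw [h0]
    simp

/-- The weights of the roots of a rational polynomial do not depend on the field. -/
lemma finsum_wsum [IsAlgClosed Ω] (q : ℕ) {P : ℚ[X]} (hP : P ≠ 0) (φ : ℤ → ℝ) :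
    ∑ᶠ α : Ω, φ (Coh.wtf q α) *
      ((P.map (algebraMap ℚ Ω)).rootMultiplicity α : ℝ) = wsum q P φ := by
  haveI := algC
  let i : AlgebraicClosure ℚ →ₐ[ℚ] Ω := IsAlgClosed.lift
  have h0 : P.map (algebraMap ℚ Ω) ≠ 0 := (Polynomial.map_ne_zero_iff
    (algebraMap ℚ Ω).injective).2 hP
  have h1 : P.map (algebraMap ℚ Ω) =
      (P.map (algebraMap ℚ (AlgebraicClosure ℚ))).map (i : AlgebraicClosure ℚ →+* Ω) := by
    rw [Polynomial.map_map]
    congr 1
    exact (i.comp_algebraMap).symm
  rw [finsum_roots h0 (fun α => φ (Coh.wtf q α)), h1, (IsAlgClosed.splits _).roots_map,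
    Multiset.map_map]
  unfold wsum
  congr 1
  refine Multiset.map_congr rfl fun z _ => ?_
  simp only [Function.comp_apply]
  have := wtf_map q i z
  rw [← this]
  rfl

lemma finsum_wsq [IsAlgClosed Ω] (q : ℕ) {P : ℚ[X]} (hP : P ≠ 0) :
    ∑ᶠ α : Ω, (Coh.wtf q α : ℝ) ^ 2 *
      ((P.map (algebraMap ℚ Ω)).rootMultiplicity α : ℝ) = wsq q P :=
  finsum_wsum q hP (fun w => (w : ℝ) ^ 2)

end

section

variable {Ω : Type w} [Field Ω] [CharZero Ω] [IsAlgClosed Ω] {R : Coh.{v, w} Ω} {q : ℕ}

/-- The number of the eigenvalues of weight `w` in several degrees. -/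
theorem weightsS_eq (hq : 1 < q) (hR : R.IsCoh q) {S : Finset ℕ} {P : ℚ[X]}
    (hP : charS R S = P.map (algebraMap ℚ Ω)) (c : ℤ) :
    ∑ m ∈ S, (finrank Ω (R.exc q m (c - m)) : ℝ) =
      wsum q P (fun w => if w = c then 1 else 0) := by
  classical
  obtain ⟨I, _, b, p, hb⟩ := exists_basis hR
  have hP0 : P ≠ 0 := by
    rintro rfl
    rw [Polynomial.map_zero] at hP
    exact charS_ne_zero hR S hP
  have h1 : ∀ m, (finrank Ω (R.exc q m (c - m)) : ℝ) =
      ∑ᶠ x : Ω, (if Coh.wtf q x = c then (1 : ℝ) else 0) * (mult R m x : ℝ) := by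
    intro m
    rw [finsum_mult hR hb m (fun x => if Coh.wtf q x = c then (1 : ℝ) else 0),
      finrank_exc hq hR hb, Finset.sum_boole]
    congr 1
    have e : Nat.card {i // ((p i).1, Coh.wtf q (p i).2 - ((p i).1 : ℤ)) = (m, c - m)} =
        Nat.card {i : {i // (p i).1 = m} // Coh.wtf q (p i.1).2 = c} := by
      refine Nat.card_congr ?_
      refine (Equiv.subtypeEquivRight fun i => ?_).trans
        (Equiv.subtypeSubtypeEquivSubtypeInter (fun i => (p i).1 = m)
          (fun i => Coh.wtf q (p i).2 = c)).symm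
      rw [Prod.ext_iff]
      constructor
      · rintro ⟨h1, h2⟩
        simp only at h1 h2
        refine ⟨h1, ?_⟩
        rw [h1] at h2
        linarith
      · rintro ⟨h1, h2⟩
        refine ⟨h1, ?_⟩
        simp only
        rw [h1, h2]
    rw [e, Nat.card_eq_fintype_card, Fintype.card_subtype]
  rw [Finset.sum_congr rfl fun m _ => h1 m,
    ← finsum_multS hR S (fun x => if Coh.wtf q x = c then (1 : ℝ) else 0),
    ← finsum_wsum q hP0 (fun w => if w = c then 1 else 0) (Ω := Ω), ← hP]
  exact finsum_congr fun α => by rw [rootMultiplicity_charS hR]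

/-- The weight moment in several degrees. -/
theorem weightS_eq (hq : 1 < q) (hR : R.IsCoh q) {S : Finset ℕ} {P : ℚ[X]}
    (hP : charS R S = P.map (algebraMap ℚ Ω)) :
    ∑ m ∈ S, (R.weightMoment q m : ℝ) =
      wsq q P - ∑ m ∈ S, (m : ℝ) ^ 2 * (finrank Ω (R.gr m) : ℝ) := by
  classical
  obtain ⟨I, _, b, p, hb⟩ := exists_basis hR
  have hP0 : P ≠ 0 := by
    rintro rfl
    rw [Polynomial.map_zero] at hP
    exact charS_ne_zero hR S hP
  have h1 : ∀ m, (R.weightMoment q m : ℝ) =
      ∑ᶠ α : Ω, (Coh.wtf q α : ℝ) ^ 2 * (mult R m α : ℝ) -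
        (m : ℝ) ^ 2 * (finrank Ω (R.gr m) : ℝ) := by
    intro m
    have e1 := weight_mean hq hR m
    have e2 : finrank Ω (R.gr m) = Nat.card {i // (p i).1 = m} :=
      finrank_gr (hR.isInternal.submodule_iSupIndep) b (fun i => (p i).1)
        (fun i => (Submodule.mem_inf.1 (hb i)).1) m
    rw [finsum_mult hR hb m (fun α => (Coh.wtf q α : ℝ) - m)] at e1
    rw [finsum_mult hR hb m (fun α => (Coh.wtf q α : ℝ) ^ 2), weightMoment_eq hq hR hb, e2,
      Nat.card_eq_fintype_card]
    push_cast
    have e3 : ∑ i : {i // (p i).1 = m}, ((Coh.wtf q (p i.1).2 : ℝ) - (m : ℝ)) ^ 2 =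
        ∑ i : {i // (p i).1 = m}, (Coh.wtf q (p i.1).2 : ℝ) ^ 2 -
        2 * m * ∑ i : {i // (p i).1 = m}, ((Coh.wtf q (p i.1).2 : ℝ) - (m : ℝ)) -
        ∑ _i : {i // (p i).1 = m}, (m : ℝ) ^ 2 := by
      rw [Finset.mul_sum, ← Finset.sum_sub_distrib, ← Finset.sum_sub_distrib]
      refine Finset.sum_congr rfl fun i _ => ?_
      ring
    rw [e3, e1, Finset.sum_const, Finset.card_univ, nsmul_eq_mul]
    ring
  rw [Finset.sum_congr rfl fun m _ => h1 m, Finset.sum_sub_distrib, ← finsum_multS hR S,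
    ← finsum_wsq q hP0 (Ω := Ω), ← hP]
  congr 1
  exact finsum_congr fun α => by rw [rootMultiplicity_charS hR]

/-- The rank moment is at most the weight moment. -/
theorem rankS_le (hq : 1 < q) (hR : R.IsCoh q) (S : Finset ℕ) :
    ∑ m ∈ S, R.rankMoment m ≤ ∑ m ∈ S, R.weightMoment q m ∧
      (∑ m ∈ S, R.rankMoment m = ∑ m ∈ S, R.weightMoment q m ↔ ∀ m ∈ S, R.MWPure q m) := by
  refine ⟨Finset.sum_le_sum fun m _ => (Coh.moment_deg hq hR m).1, ?_⟩
  rw [Finset.sum_eq_sum_iff_of_le fun m _ => (Coh.moment_deg hq hR m).1]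
  exact forall₂_congr fun m _ => (Coh.moment_deg hq hR m).2

/-- The number of wrong weights. -/
theorem wrongS_le (hq : 1 < q) (hR : R.IsCoh q) (S : Finset ℕ) {M : ℕ → ℤ → Submodule Ω R.V}
    (hM : ∀ m ∈ S, IsMonodromyFiltrationOn (R.gr m) R.N (M m)) :
    ∑ m ∈ S, ((finrank Ω (R.gr m) : ℤ) - rightDeg R q m (M m)) ≤
      ∑ m ∈ S, R.weightMoment q m - ∑ m ∈ S, R.rankMoment m := by
  rw [← Finset.sum_sub_distrib]
  exact Finset.sum_le_sum fun m hm => wrong_le hq hR m (hM m hm)

end

section

variable {Ω : Type w} [Field Ω] [CharZero Ω] {R : Coh.{v, w} Ω} {q : ℕ}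

/-- The relation between the products of the characteristic polynomials in the even and in the odd
degrees. -/
def Alt (R : Coh.{v, w} Ω) (k : ℕ) (P Q : ℚ[X]) : Prop :=
  (∏ j ∈ (Finset.range (k + 1)).filter Even, charP R j) * Q.map (algebraMap ℚ Ω) =
    (∏ j ∈ (Finset.range (k + 1)).filter (fun j => ¬ Even j), charP R j) *
      P.map (algebraMap ℚ Ω)

/-- The rational polynomial of the remaining degrees. -/
noncomputable def rest (k : ℕ) (S : Finset ℕ) (P Q : ℚ[X]) (G : ℕ → ℚ[X]) (e : Prop)
    [Decidable e] : ℚ[X] :=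
  if e then
    ((∏ j ∈ (Finset.range (k + 1)).filter (fun j => ¬ Even j), G j) * P) /
      ((∏ j ∈ (Finset.range (k + 1)).filter (fun j => Even j ∧ j ∉ S), G j) * Q)
  else
    ((∏ j ∈ (Finset.range (k + 1)).filter Even, G j) * Q) /
      ((∏ j ∈ (Finset.range (k + 1)).filter (fun j => ¬ Even j ∧ j ∉ S), G j) * P)

lemma div_of_mul {f : Polynomial Ω} {A B : ℚ[X]} (hA : A ≠ 0)
    (h : f * A.map (algebraMap ℚ Ω) = B.map (algebraMap ℚ Ω)) :
    f = (B / A).map (algebraMap ℚ Ω) := by
  have h1 : A.map (algebraMap ℚ Ω) ∣ B.map (algebraMap ℚ Ω) := ⟨f, by rw [← h, mul_comm]⟩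
  rw [Polynomial.map_dvd_map'] at h1
  have h2 : A * (B / A) = B := EuclideanDomain.mul_div_cancel' hA h1
  have h3 : A.map (algebraMap ℚ Ω) ≠ 0 := (Polynomial.map_ne_zero_iff
    (algebraMap ℚ Ω).injective).2 hA
  have h4 : A.map (algebraMap ℚ Ω) * f =
      A.map (algebraMap ℚ Ω) * (B / A).map (algebraMap ℚ Ω) := by
    rw [← Polynomial.map_mul, h2, mul_comm, h]
  exact mul_left_cancel₀ h3 h4

/-- If all the other characteristic polynomials are rational, so is the product of the remaining
ones. -/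
theorem charS_eq {k : ℕ} {S : Finset ℕ} {P Q : ℚ[X]} (hP : P ≠ 0) (hQ : Q ≠ 0)
    (h : Alt R k P Q) {G : ℕ → ℚ[X]} (hG : ∀ j, j ≤ k → j ∉ S → G j ≠ 0)
    (hj : ∀ j, j ≤ k → j ∉ S → charP R j = (G j).map (algebraMap ℚ Ω)) (hk : ∀ m ∈ S, m ≤ k)
    {e : Prop} [Decidable e] (he : ∀ m ∈ S, (Even m ↔ e)) :
    charS R S = (rest k S P Q G e).map (algebraMap ℚ Ω) := by
  classical
  unfold rest
  split_ifs with hev
  · apply div_of_mul
    · refine mul_ne_zero (Finset.prod_ne_zero_iff.2 fun j hj' => ?_) hQ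
      have h1 := Finset.mem_filter.1 hj'
      exact hG j (by have := Finset.mem_range.1 h1.1; omega) h1.2.2
    · have h1 : (Finset.range (k + 1)).filter Even =
          S ∪ (Finset.range (k + 1)).filter (fun j => Even j ∧ j ∉ S) := by
        ext j
        simp only [Finset.mem_filter, Finset.mem_range, Finset.mem_union]
        constructor
        · rintro ⟨h1, h2⟩
          by_cases h3 : j ∈ S
          · exact Or.inl h3
          · exact Or.inr ⟨h1, h2, h3⟩
        · rintro (h1 | h1)
          · exact ⟨by have := hk j h1; omega, (he j h1).2 hev⟩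
          · exact ⟨h1.1, h1.2.1⟩
      have h2 : Disjoint S ((Finset.range (k + 1)).filter (fun j => Even j ∧ j ∉ S)) := by
        rw [Finset.disjoint_left]
        intro j h1 h2
        exact (Finset.mem_filter.1 h2).2.2 h1
      unfold Alt at h
      rw [h1, Finset.prod_union h2] at h
      have h3 : ∏ j ∈ (Finset.range (k + 1)).filter (fun j => Even j ∧ j ∉ S), charP R j =
          (∏ j ∈ (Finset.range (k + 1)).filter (fun j => Even j ∧ j ∉ S), G j).map
            (algebraMap ℚ Ω) := by
        rw [Polynomial.map_prod]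
        refine Finset.prod_congr rfl fun j hj' => ?_
        have h1 := Finset.mem_filter.1 hj'
        exact hj j (by have := Finset.mem_range.1 h1.1; omega) h1.2.2
      have h4 : ∏ j ∈ (Finset.range (k + 1)).filter (fun j => ¬ Even j), charP R j =
          (∏ j ∈ (Finset.range (k + 1)).filter (fun j => ¬ Even j), G j).map
            (algebraMap ℚ Ω) := by
        rw [Polynomial.map_prod]
        refine Finset.prod_congr rfl fun j hj' => ?_
        have h1 := Finset.mem_filter.1 hj'
        exact hj j (by have := Finset.mem_range.1 h1.1; omega)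
          (fun h2 => h1.2 ((he j h2).2 hev))
      rw [h3, h4] at h
      rw [Polynomial.map_mul, Polynomial.map_mul, ← h, mul_assoc]
      rfl
  · apply div_of_mul
    · refine mul_ne_zero (Finset.prod_ne_zero_iff.2 fun j hj' => ?_) hP
      have h1 := Finset.mem_filter.1 hj'
      exact hG j (by have := Finset.mem_range.1 h1.1; omega) h1.2.2
    · have h1 : (Finset.range (k + 1)).filter (fun j => ¬ Even j) =
          S ∪ (Finset.range (k + 1)).filter (fun j => ¬ Even j ∧ j ∉ S) := by
        ext j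
        simp only [Finset.mem_filter, Finset.mem_range, Finset.mem_union]
        constructor
        · rintro ⟨h1, h2⟩
          by_cases h3 : j ∈ S
          · exact Or.inl h3
          · exact Or.inr ⟨h1, h2, h3⟩
        · rintro (h1 | h1)
          · exact ⟨by have := hk j h1; omega, fun h2 => hev ((he j h1).1 h2)⟩
          · exact ⟨h1.1, h1.2.1⟩
      have h2 : Disjoint S ((Finset.range (k + 1)).filter (fun j => ¬ Even j ∧ j ∉ S)) := by
        rw [Finset.disjoint_left]
        intro j h1 h2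
        exact (Finset.mem_filter.1 h2).2.2 h1
      unfold Alt at h
      rw [h1, Finset.prod_union h2] at h
      have h3 : ∏ j ∈ (Finset.range (k + 1)).filter (fun j => ¬ Even j ∧ j ∉ S), charP R j =
          (∏ j ∈ (Finset.range (k + 1)).filter (fun j => ¬ Even j ∧ j ∉ S), G j).map
            (algebraMap ℚ Ω) := by
        rw [Polynomial.map_prod]
        refine Finset.prod_congr rfl fun j hj' => ?_
        have h1 := Finset.mem_filter.1 hj'
        exact hj j (by have := Finset.mem_range.1 h1.1; omega) h1.2.2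
      have h4 : ∏ j ∈ (Finset.range (k + 1)).filter Even, charP R j =
          (∏ j ∈ (Finset.range (k + 1)).filter Even, G j).map (algebraMap ℚ Ω) := by
        rw [Polynomial.map_prod]
        refine Finset.prod_congr rfl fun j hj' => ?_
        have h1 := Finset.mem_filter.1 hj'
        exact hj j (by have := Finset.mem_range.1 h1.1; omega)
          (fun h2 => hev ((he j h2).1 h1.2))
      rw [h3, h4] at h
      rw [Polynomial.map_mul, Polynomial.map_mul, h, mul_assoc]
      rfl

end

end Pool.Agent.V2450.WM
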