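import Pool.Agent.Y163.MX.Fin

/-!
# Sums over several degrees: multiplicities, duality, weights
-/

set_option autoImplicit false

open Module Polynomial

namespace Pool.Agent.V2450.WM

universe u v w

open Pool.Agent.Y143 Pool.Agent.Y163.MW Pool.Agent.Y163.MX

section gen

variable {Ω : Type w}

/-- A sum over a set with an involution which changes the sign. -/
lemma finsum_antisymm {M : Ω → ℕ} (hfin : {α | M α ≠ 0}.Finite) (ι : Ω → Ω)
    (hι : ∀ α, M α ≠ 0 → M (ι α) = M α ∧ ι (ι α) = α) (g : Ω → ℝ)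
    (hg : ∀ α, M α ≠ 0 → g (ι α) = -g α) : ∑ᶠ α, g α * (M α : ℝ) = 0 := by
  classical
  have h1 : ∑ᶠ α, g α * (M α : ℝ) = ∑ α ∈ hfin.toFinset, g α * (M α : ℝ) := by
    refine finsum_eq_sum_of_support_subset _ ?_
    intro α hα
    rw [Set.Finite.coe_toFinset]
    intro h0
    apply hα
    simp only
    rw [h0]
    simp
  rw [h1]
  have hm : ∀ α ∈ hfin.toFinset, M α ≠ 0 := fun α hα => by
    rw [Set.Finite.mem_toFinset] at hα
    exact hα
  have hmem : ∀ α ∈ hfin.toFinset, ι α ∈ hfin.toFinset := by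
    intro α hα
    rw [Set.Finite.mem_toFinset, Set.mem_ofPred_eq, (hι α (hm α hα)).1]
    exact hm α hα
  have hsum : ∑ α ∈ hfin.toFinset, g α * (M α : ℝ) =
      ∑ α ∈ hfin.toFinset, g (ι α) * (M (ι α) : ℝ) := by
    refine Finset.sum_bij (fun α _ => ι α) hmem ?_ ?_ ?_
    · intro α hα β hβ h
      rw [← (hι α (hm α hα)).2, ← (hι β (hm β hβ)).2, h]
    · intro α hα
      exact ⟨ι α, hmem α hα, (hι α (hm α hα)).2⟩
    · intro α hα
      rw [(hι α (hm α hα)).2]
  have hneg : ∀ α ∈ hfin.toFinset, g (ι α) * (M (ι α) : ℝ) = -(g α * (M α : ℝ)) := by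
    intro α hα
    rw [(hι α (hm α hα)).1, hg α (hm α hα)]
    ring
  rw [Finset.sum_congr rfl hneg, Finset.sum_neg_distrib] at hsum
  linarith

end gen

variable {Ω : Type w} [Field Ω] [CharZero Ω] {R : Coh.{v, w} Ω} {q : ℕ}

lemma isVal_zpow (hq : 1 < q) {val : Ω → ℝ} (hv : IsVal q val) (n : ℤ) :
    val ((q : Ω) ^ n) = n := by
  have hq0 : (q : Ω) ≠ 0 := Nat.cast_ne_zero.2 (by omega)
  have hvz : ∀ n : ℕ, val ((q : Ω) ^ n) = n := by
    intro n
    induction n with
    | zero =>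
      have h3 := hv.mul 1 1 one_ne_zero one_ne_zero
      rw [mul_one] at h3
      rw [pow_zero]
      push_cast
      linarith
    | succ n ih =>
      rw [pow_succ, hv.mul _ _ (pow_ne_zero _ hq0) hq0, ih, hv.norm]
      push_cast
      ring
  rcases le_total 0 n with hn | hn
  · obtain ⟨k, rfl⟩ := Int.eq_ofNat_of_zero_le hn
    rw [zpow_natCast, hvz]
    simp
  · obtain ⟨k, hk⟩ : ∃ k : ℕ, n = -(k : ℤ) := ⟨n.natAbs, by omega⟩
    subst hk
    have h4 := hv.mul ((q : Ω) ^ (-(k : ℤ))) ((q : Ω) ^ k) (zpow_ne_zero _ hq0)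
      (pow_ne_zero _ hq0)
    rw [← zpow_natCast (q : Ω) k, ← zpow_add₀ hq0, neg_add_cancel, zpow_zero, zpow_natCast,
      hvz] at h4
    have h5 := hvz 0
    rw [pow_zero] at h5
    rw [h5] at h4
    push_cast at h4 ⊢
    linarith

lemma isVal_div (hq : 1 < q) {val : Ω → ℝ} (hv : IsVal q val) (n : ℤ) {α : Ω} (hα : α ≠ 0) :
    val ((q : Ω) ^ n / α) = n - val α := by
  have hq0 : (q : Ω) ≠ 0 := Nat.cast_ne_zero.2 (by omega)
  have h3 := hv.mul ((q : Ω) ^ n / α) α (div_ne_zero (zpow_ne_zero _ hq0) hα) hα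
  rw [div_mul_cancel₀ _ hα, isVal_zpow hq hv] at h3
  linarith

/-- The weight of the dual eigenvalue. -/
lemma weil_div (hq : 1 < q) {w : ℤ} (m : ℤ) {α : Ω} (h : IsWeilNumber q w α) :
    IsWeilNumber q (2 * m - w) ((q : Ω) ^ m / α) := by
  have hq0 : (q : Ω) ≠ 0 := Nat.cast_ne_zero.2 (by omega)
  have h1 := (weil_conj hq h).twist (by omega : q ≠ 0) (m - w)
  have h2 : (q : Ω) ^ (m - w) * ((q : Ω) ^ w / α) = (q : Ω) ^ m / α := by
    rw [← mul_div_assoc, ← zpow_add₀ hq0]
    congr 2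
    ring
  rw [h2] at h1
  rwa [show w + 2 * (m - w) = 2 * m - w by ring] at h1

lemma mult_ne_zero_weil (hR : R.IsCoh q) {m : ℕ} {α : Ω} (h : mult R m α ≠ 0) :
    ∃ w : ℤ, IsWeilNumber q w α := by
  by_contra hcon
  exact h (mult_eq_zero hR hcon)

lemma mult_wt (hq : 1 < q) (hR : R.IsCoh q) {m : ℕ} {α : Ω} (h : mult R m α ≠ 0) :
    IsWeilNumber q (Coh.wtf q α) α := by
  obtain ⟨w, hw⟩ := mult_ne_zero_weil hR h
  rwa [Coh.wtf_eq hq hw]

/-- Poincare duality for the multiplicities. -/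
theorem mult_dual [IsAlgClosed Ω] (hq : 1 < q) (hR : R.IsCoh q) (m : ℕ) {α : Ω} (hα : α ≠ 0) :
    mult R m ((q : Ω) ^ m / α) = mult R m α := by
  have := hR.finite
  have hq0 : (q : Ω) ≠ 0 := Nat.cast_ne_zero.2 (by omega)
  have key : ∀ α : Ω, α ≠ 0 → mult R m α ≤ mult R m ((q : Ω) ^ m / α) := by
    intro α hα
    obtain ⟨B, hB⟩ := hR.dual
    have hB0 : ∀ x, (∀ y, B x y = 0) → x = 0 := hB.nondeg
    have hB1 : ∀ m m' x y, x ∈ R.gr m → y ∈ R.gr m' → m ≠ m' → B x y = 0 := hB.orth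
    have hB2 : ∀ m x y, x ∈ R.gr m → y ∈ R.gr m → B (R.F x) (R.F y) = (q : Ω) ^ m * B x y :=
      hB.frob
    let A : Submodule Ω R.V := R.gr m ⊓ R.F.maxGenEigenspace α
    let A' : Submodule Ω R.V := R.gr m ⊓ R.F.maxGenEigenspace ((q : Ω) ^ m / α)
    let φ : A →ₗ[Ω] Module.Dual Ω A' :=
      { toFun := fun x => (B x).comp A'.subtype
        map_add' := fun x y => by ext z; simp
        map_smul' := fun a x => by ext z; simp }
    have hφ : Function.Injective φ := by
      rw [← LinearMap.ker_eq_bot, LinearMap.ker_eq_bot']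
      intro x hx
      apply Subtype.ext
      apply hB0
      have hxm : (x : R.V) ∈ R.gr m := (Submodule.mem_inf.1 x.2).1
      have h1 : ∀ m' β, ∀ y ∈ R.pc (m', β), B x y = 0 := by
        intro m' β y hy
        have hym : y ∈ R.gr m' := (Submodule.mem_inf.1 hy).1
        by_cases hm : m' = m
        · subst hm
          by_cases hb : β = (q : Ω) ^ m' / α
          · subst hb
            exact DFunLike.congr_fun hx ⟨y, hy⟩
          · refine gen_orth (hR.F_gr m') (hB2 m') ?_ hxm hym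
              (Submodule.mem_inf.1 x.2).2 (Submodule.mem_inf.1 hy).2
            intro h5
            apply hb
            rw [← h5, mul_div_cancel_left₀ _ hα]
        · exact hB1 m m' x y hxm hym (Ne.symm hm)
      intro y
      have h8 : (⊤ : Submodule Ω R.V) ≤ LinearMap.ker (B x) := by
        rw [← hR.isInternal.submodule_iSup_eq_top]
        refine iSup_le fun m' => ?_
        rw [Coh.gr_eq hR m']
        exact iSup_le fun β y hy => LinearMap.mem_ker.2 (h1 m' β y hy)
      exact LinearMap.mem_ker.1 (h8 (Submodule.mem_top))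
    have := LinearMap.finrank_le_finrank_of_injective hφ
    rwa [Subspace.dual_finrank_eq] at this
  apply le_antisymm _ (key α hα)
  have h2 := key ((q : Ω) ^ m / α) (div_ne_zero (pow_ne_zero _ hq0) hα)
  rwa [div_div_cancel₀ (pow_ne_zero _ hq0)] at h2

/-- The mean weight on `H^m` is `m`. -/
lemma weight_mean [IsAlgClosed Ω] (hq : 1 < q) (hR : R.IsCoh q) (m : ℕ) :
    ∑ᶠ α : Ω, ((Coh.wtf q α : ℝ) - m) * (mult R m α : ℝ) = 0 := by
  refine finsum_antisymm (finite_mult hR m) (fun α => (q : Ω) ^ (m : ℤ) / α) ?_ _ ?_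
  · intro α hα
    have h0 : α ≠ 0 := weil_ne_zero (by omega) (mult_wt hq hR hα)
    have hq0 : (q : Ω) ≠ 0 := Nat.cast_ne_zero.2 (by omega)
    refine ⟨?_, div_div_cancel₀ (zpow_ne_zero _ hq0)⟩
    rw [zpow_natCast]
    exact mult_dual hq hR m h0
  · intro α hα
    rw [Coh.wtf_eq hq (weil_div hq (m : ℤ) (mult_wt hq hR hα))]
    push_cast
    ring

/-- The mean slope on `H^m` is `m / 2`. -/
lemma slope_mean [IsAlgClosed Ω] (hq : 1 < q) (hR : R.IsCoh q) (m : ℕ) {val : Ω → ℝ}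
    (hv : IsVal q val) :
    ∑ᶠ α : Ω, (2 * val α - m) * (mult R m α : ℝ) = 0 := by
  refine finsum_antisymm (finite_mult hR m) (fun α => (q : Ω) ^ (m : ℤ) / α) ?_ _ ?_
  · intro α hα
    have h0 : α ≠ 0 := weil_ne_zero (by omega) (mult_wt hq hR hα)
    have hq0 : (q : Ω) ≠ 0 := Nat.cast_ne_zero.2 (by omega)
    refine ⟨?_, div_div_cancel₀ (zpow_ne_zero _ hq0)⟩
    rw [zpow_natCast]
    exact mult_dual hq hR m h0
  · intro α hα
    have h0 : α ≠ 0 := weil_ne_zero (by omega) (mult_wt hq hR hα)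
    rw [isVal_div hq hv (m : ℤ) h0]
    push_cast
    ring

/-- The multiplicity of an eigenvalue on the sum of the `H^m`, `m ∈ S`. -/
noncomputable def multS (R : Coh.{v, w} Ω) (S : Finset ℕ) (α : Ω) : ℕ := ∑ m ∈ S, mult R m α

lemma finite_multS (hR : R.IsCoh q) (S : Finset ℕ) : {α | multS R S α ≠ 0}.Finite := by
  refine (S.finite_toSet.biUnion fun m _ => finite_mult hR m).subset ?_
  intro α hα
  simp only [Set.mem_ofPred_eq, multS] at hα
  obtain ⟨m, hm, h⟩ := Finset.exists_ne_zero_of_sum_ne_zero hα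
  exact Set.mem_biUnion (Finset.mem_coe.2 hm) h

lemma multS_wt (hq : 1 < q) (hR : R.IsCoh q) {S : Finset ℕ} {α : Ω} (h : multS R S α ≠ 0) :
    IsWeilNumber q (Coh.wtf q α) α := by
  obtain ⟨m, hm, h⟩ := Finset.exists_ne_zero_of_sum_ne_zero h
  exact mult_wt hq hR h

/-- The product of the characteristic polynomials. -/
noncomputable def charS (R : Coh.{v, w} Ω) (S : Finset ℕ) : Polynomial Ω := ∏ m ∈ S, charP R m

lemma charS_ne_zero (hR : R.IsCoh q) (S : Finset ℕ) : charS R S ≠ 0 :=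
  Finset.prod_ne_zero_iff.2 fun j _ => charP_ne_zero hR j

lemma rootMultiplicity_charS (hR : R.IsCoh q) (S : Finset ℕ) (β : Ω) :
    (charS R S).rootMultiplicity β = multS R S β := by
  classical
  have hne := charS_ne_zero hR S
  unfold charS at hne ⊢
  unfold multS
  rw [← Polynomial.count_roots, Polynomial.roots_prod _ _ hne, Multiset.count_bind]
  rw [← Finset.sum_eq_multiset_sum]
  refine Finset.sum_congr rfl fun m _ => ?_
  rw [Polynomial.count_roots, rootMultiplicity_charP hR]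

/-- The symmetry of the eigenvalues of a given weight. -/
lemma multS_conj (hq : 1 < q) (hR : R.IsCoh q) {S : Finset ℕ} (hrat : RationalPoly (charS R S))
    {w : ℤ} {α : Ω} (hα : IsWeilNumber q w α) : multS R S ((q : Ω) ^ w / α) = multS R S α := by
  obtain ⟨P, hP⟩ := hrat
  have h1 := minpoly_conj (by omega : 0 < q) hα
  have hint : IsIntegral ℚ α := hα.1.isIntegral
  have hint' : IsIntegral ℚ ((q : Ω) ^ w / α) := by
    by_contra hcon
    rw [minpoly.eq_zero hcon] at h1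
    exact minpoly.ne_zero hint h1.symm
  rw [← rootMultiplicity_charS hR, ← rootMultiplicity_charS hR, hP]
  exact rootMultiplicity_conj h1 hint hint'

/-- Sums over the eigenvalues in several degrees. -/
lemma finsum_multS (hR : R.IsCoh q) (S : Finset ℕ) (g : Ω → ℝ) :
    ∑ᶠ α : Ω, g α * (multS R S α : ℝ) = ∑ m ∈ S, ∑ᶠ α : Ω, g α * (mult R m α : ℝ) := by
  classical
  have h1 : ∀ α, g α * (multS R S α : ℝ) = ∑ m ∈ S, g α * (mult R m α : ℝ) := by
    intro α
    unfold multS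
    push_cast
    rw [Finset.mul_sum]
  rw [finsum_congr h1]
  refine finsum_sum_comm S _ fun m _ => ?_
  refine (finite_mult hR m).subset fun α hα h0 => hα ?_
  simp only
  rw [h0]
  simp

/-- The mixed sum vanishes: the case of several degrees. -/
lemma mixed_zeroS [IsAlgClosed Ω] (hq : 1 < q) (hR : R.IsCoh q) {S : Finset ℕ}
    (hrat : RationalPoly (charS R S)) {val : Ω → ℝ} (hv : IsVal q val) :
    ∑ m ∈ S, ∑ᶠ α : Ω, (((Coh.wtf q α : ℝ) - m) * (2 * val α - Coh.wtf q α)) *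
      (mult R m α : ℝ) = 0 := by
  classical
  have hq0 : (q : Ω) ≠ 0 := Nat.cast_ne_zero.2 (by omega)
  -- the first part
  have h1 : ∑ᶠ α : Ω, ((Coh.wtf q α : ℝ) * (2 * val α - Coh.wtf q α)) * (multS R S α : ℝ) = 0 := by
    refine finsum_antisymm (finite_multS hR S) (fun α => (q : Ω) ^ (Coh.wtf q α) / α) ?_ _ ?_
    · intro α hα
      have hw := multS_wt hq hR hα
      have h0 : α ≠ 0 := weil_ne_zero (by omega) hw
      refine ⟨multS_conj hq hR hrat hw, ?_⟩
      rw [Coh.wtf_eq hq (weil_conj hq hw), div_div_cancel₀ (zpow_ne_zero _ hq0)]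
    · intro α hα
      have hw := multS_wt hq hR hα
      have h0 : α ≠ 0 := weil_ne_zero (by omega) hw
      rw [Coh.wtf_eq hq (weil_conj hq hw), isVal_div hq hv _ h0]
      ring
  rw [finsum_multS hR] at h1
  -- the second part
  have h2 : ∀ m ∈ S, ∑ᶠ α : Ω, (((Coh.wtf q α : ℝ) - m) * (2 * val α - Coh.wtf q α)) *
      (mult R m α : ℝ) = ∑ᶠ α : Ω, ((Coh.wtf q α : ℝ) * (2 * val α - Coh.wtf q α)) *
      (mult R m α : ℝ) := by
    intro m _
    have hfin : ∀ g : Ω → ℝ, (Function.support fun α => g α * (mult R m α : ℝ)).Finite := by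
      intro g
      refine (finite_mult hR m).subset fun α hα h0 => hα ?_
      simp only
      rw [h0]
      simp
    have e1 : ∑ᶠ α : Ω, (2 * val α - Coh.wtf q α) * (mult R m α : ℝ) = 0 := by
      have a1 := slope_mean hq hR m hv
      have a2 := weight_mean hq hR m
      have a3 : ∑ᶠ α : Ω, (2 * val α - Coh.wtf q α) * (mult R m α : ℝ) =
          ∑ᶠ α : Ω, (2 * val α - m) * (mult R m α : ℝ) -
          ∑ᶠ α : Ω, ((Coh.wtf q α : ℝ) - m) * (mult R m α : ℝ) := by
        rw [← finsum_sub_distrib (hfin _) (hfin _)]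
        exact finsum_congr fun α => by ring
      rw [a3, a1, a2, sub_zero]
    have e2 : ∑ᶠ α : Ω, (((Coh.wtf q α : ℝ) - m) * (2 * val α - Coh.wtf q α)) *
        (mult R m α : ℝ) = ∑ᶠ α : Ω, ((Coh.wtf q α : ℝ) * (2 * val α - Coh.wtf q α)) *
        (mult R m α : ℝ) - ∑ᶠ α : Ω, ((m : ℝ) * (2 * val α - Coh.wtf q α)) *
        (mult R m α : ℝ) := by
      rw [← finsum_sub_distrib (hfin _) (hfin _)]
      exact finsum_congr fun α => by ring
    have e3 : ∑ᶠ α : Ω, ((m : ℝ) * (2 * val α - Coh.wtf q α)) * (mult R m α : ℝ) =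
        (m : ℝ) * ∑ᶠ α : Ω, (2 * val α - Coh.wtf q α) * (mult R m α : ℝ) := by
      rw [mul_finsum]
      exact finsum_congr fun α => by ring
    rw [e2, e3, e1, mul_zero, sub_zero]
  rw [Finset.sum_congr rfl h2, h1]

/-- The comparison of the moments in several degrees. -/
theorem newton_eqS [IsAlgClosed Ω] (hq : 1 < q) (hR : R.IsCoh q) {S : Finset ℕ}
    (hrat : RationalPoly (charS R S)) {val : Ω → ℝ} (hv : IsVal q val) :
    ∑ m ∈ S, newtonMoment R val m = ∑ m ∈ S, (R.weightMoment q m : ℝ) +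
      ∑ m ∈ S, ∑ᶠ α : Ω, (2 * val α - Coh.wtf q α) ^ 2 * (mult R m α : ℝ) := by
  classical
  have h0 := mixed_zeroS hq hR hrat hv
  obtain ⟨I, _, b, p, hb⟩ := exists_basis hR
  have h1 : ∀ m, newtonMoment R val m = (R.weightMoment q m : ℝ) +
      ∑ᶠ α : Ω, (2 * val α - Coh.wtf q α) ^ 2 * (mult R m α : ℝ) +
      2 * ∑ᶠ α : Ω, (((Coh.wtf q α : ℝ) - m) * (2 * val α - Coh.wtf q α)) *
        (mult R m α : ℝ) := by
    intro m
    unfold newtonMoment
    rw [finsum_mult hR hb m (fun α => ((Coh.wtf q α : ℝ) - m) * (2 * val α - Coh.wtf q α)),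
      finsum_mult hR hb m (fun α => (2 * val α - m) ^ 2),
      finsum_mult hR hb m (fun α => (2 * val α - Coh.wtf q α) ^ 2), weightMoment_eq hq hR hb]
    push_cast
    rw [Finset.mul_sum, ← Finset.sum_add_distrib, ← Finset.sum_add_distrib]
    refine Finset.sum_congr rfl fun i _ => ?_
    ring
  rw [Finset.sum_congr rfl fun m _ => h1 m, Finset.sum_add_distrib, Finset.sum_add_distrib,
    ← Finset.mul_sum, h0, mul_zero, add_zero]

end Pool.Agent.V2450.WM
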