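import Pool.Agent.V2450.WM.Pow

/-!
# The characteristic polynomial of the Frobenius on the kernel of the monodromy operator
-/

set_option autoImplicit false

open Module Polynomial

namespace Pool.Agent.V2450.WM

universe u v w v' w'

open Pool.Agent.Y143 Pool.Agent.H914 Pool.Agent.Y163.MW Pool.Agent.Y163.MX
  Pool.Agent.Y163.MW.Coh Pool.Agent.Y136.UB

section lat

variable {K : Type u} [Field K] {V : Type v} [AddCommGroup V] [Module K V]

lemma eq_of_iSup {ι : Type*} {A B : ι → Submodule K V} (hB : iSupIndep B) (hAB : ∀ i, A i ≤ B i)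
    (h : ⨆ i, B i ≤ ⨆ i, A i) (i : ι) : A i = B i := by
  apply le_antisymm (hAB i)
  intro x hx
  have h1 : x ∈ A i ⊔ ⨆ (j) (_ : j ≠ i), B j := by
    have h2 : ⨆ i, A i ≤ A i ⊔ ⨆ (j) (_ : j ≠ i), B j := by
      refine iSup_le fun j => ?_
      by_cases hj : j = i
      · subst hj
        exact le_sup_left
      · exact le_sup_of_le_right ((hAB j).trans (le_iSup₂_of_le j hj le_rfl))
    exact h2 (h (Submodule.mem_iSup_of_mem i hx))
  obtain ⟨a, ha, b, hb, rfl⟩ := Submodule.mem_sup.1 h1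
  have h3 : b ∈ B i := by
    have := (B i).sub_mem hx (hAB i ha)
    rwa [add_sub_cancel_left] at this
  have h4 : b = 0 := Submodule.disjoint_def.1 (hB i) b h3 hb
  rw [h4, add_zero]
  exact ha

lemma finrank_map_ker [Module.Finite K V] (N : Module.End K V) (P : Submodule K V) :
    finrank K (P.map N) + finrank K (LinearMap.ker N ⊓ P : Submodule K V) = finrank K P := by
  have h := LinearMap.finrank_range_add_finrank_ker (N.domRestrict P)
  rw [LinearMap.range_domRestrict, LinearMap.ker_domRestrict] at h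
  rw [← h, ← Submodule.finrank_map_subtype_eq P ((LinearMap.ker N).comap P.subtype),
    Submodule.map_comap_subtype, inf_comm]

lemma internal_comap' {J : Type*} [DecidableEq J] {S : Submodule K V} {W : J → Submodule K V}
    (hi : iSupIndep W) (hS : ⨆ c, W c = S) :
    DirectSum.IsInternal (fun c => (W c).comap S.subtype) := by
  have hW : ∀ c, W c ≤ S := fun c => hS ▸ le_iSup W c
  apply DirectSum.isInternal_submodule_of_iSupIndep_of_iSup_eq_top
  · rw [iSupIndep_iff_finsetSum_eq_zero_imp_eq_zero] at hi ⊢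
    intro s v hv hsum i hi'
    apply Subtype.ext
    refine hi s (fun i => (v i : V)) (fun i hi => hv i hi) ?_ i hi'
    rw [← Submodule.coe_sum, hsum]
    rfl
  · apply Submodule.map_injective_of_injective S.injective_subtype
    rw [Submodule.map_iSup, Submodule.map_top, Submodule.range_subtype, ← hS]
    refine iSup_congr fun c => ?_
    rw [hS, Submodule.map_comap_subtype, inf_eq_right.2 (hW c)]

lemma finrank_internal [Module.Finite K V] {J : Type*} [DecidableEq J] {A : J → Submodule K V}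
    (h : DirectSum.IsInternal A) : finrank K V = Nat.card (Σ j, Fin (finrank K (A j))) := by
  let b := h.collectedBasis (fun j => Module.finBasis K (A j))
  exact Module.finrank_eq_nat_card_basis b

end lat

section

variable {Ω : Type w} [Field Ω] [CharZero Ω] {R : Coh.{v, w} Ω} {q : ℕ}

lemma N_pc (hq : 1 < q) (hR : R.IsCoh q) (m : ℕ) (α : Ω) :
    ∀ x ∈ R.pc (m, α), R.N x ∈ R.pc (m, (q : Ω) ^ (-1 : ℤ) * α) := by
  intro y hy
  have hq0 : (q : Ω) ≠ 0 := Nat.cast_ne_zero.2 (by omega)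
  obtain ⟨h1, h2⟩ := Submodule.mem_inf.1 hy
  refine Submodule.mem_inf.2 ⟨hR.N_gr m y h1, ?_⟩
  have h4 : y ∈ ((q : Ω) ^ (-1 : ℤ) • R.F).maxGenEigenspace ((q : Ω) ^ (-1 : ℤ) * α) := by
    obtain ⟨k, hk⟩ := mem_gen.1 h2
    refine mem_gen.2 ⟨k, ?_⟩
    have e : (q : Ω) ^ (-1 : ℤ) • R.F - algebraMap Ω (Module.End Ω R.V) ((q : Ω) ^ (-1 : ℤ) * α) =
        (q : Ω) ^ (-1 : ℤ) • (R.F - algebraMap Ω (Module.End Ω R.V) α) := by
      ext z
      simp only [LinearMap.sub_apply, LinearMap.smul_apply, Module.algebraMap_end_apply,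
        smul_sub, smul_smul]
    rw [e, _root_.smul_pow, LinearMap.smul_apply, hk, smul_zero]
  refine gen_map R.N (fun z => ?_) h4
  rw [LinearMap.smul_apply, map_smul, hR.N_F, smul_smul, zpow_neg_one, inv_mul_cancel₀ hq0,
    one_smul]

lemma Npow_exc (hq : 1 < q) (hR : R.IsCoh q) (m k : ℕ) (c : ℤ) : ∀ x ∈ R.exc q m c,
    (R.N ^ k) x ∈ R.exc q m (c - 2 * k) := by
  induction k with
  | zero => intro x hx; simpa using hx
  | succ k ih =>
    intro x hx
    rw [pow_succ', Module.End.mul_apply]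
    have := N_exc hq hR m _ _ (ih x hx)
    rwa [show c - 2 * (k : ℤ) - 2 = c - 2 * ((k + 1 : ℕ) : ℤ) by push_cast; ring] at this

/-- The multiplicity of the eigenvalue `α` of `F` on the kernel of `N` on `H^m`. -/
noncomputable def kmult (R : Coh.{v, w} Ω) (m : ℕ) (α : Ω) : ℕ :=
  finrank Ω (LinearMap.ker R.N ⊓ R.pc (m, α) : Submodule Ω R.V)

lemma N_surj [IsAlgClosed Ω] (hq : 1 < q) (hR : R.IsCoh q) {m : ℕ} (h : R.MWPure q m) {c : ℤ}
    (hc : c ≤ 1) : ∀ y ∈ R.exc q m (c - 2), ∃ x ∈ R.exc q m c, R.N x = y := by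
  intro y hy
  obtain ⟨a, ha⟩ : ∃ a : ℕ, 2 - c = (a : ℤ) + 1 := ⟨(1 - c).toNat, by omega⟩
  rw [show c - 2 = -((a + 1 : ℕ) : ℤ) by push_cast; omega] at hy
  obtain ⟨x, hx, hxy⟩ := (((mwPure_iff hq hR m).1 h) (a + 1)).2 y hy
  refine ⟨(R.N ^ a) x, ?_, ?_⟩
  · have := Npow_exc hq hR m a _ x hx
    rwa [show ((a + 1 : ℕ) : ℤ) - 2 * (a : ℤ) = c by push_cast; omega] at this
  · rw [← hxy, pow_succ', Module.End.mul_apply]

lemma N_inj [IsAlgClosed Ω] (hq : 1 < q) (hR : R.IsCoh q) {m : ℕ} (h : R.MWPure q m) {c : ℤ}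
    (hc : 1 ≤ c) : ∀ x ∈ R.exc q m c, R.N x = 0 → x = 0 := by
  intro x hx h0
  obtain ⟨a, ha⟩ : ∃ a : ℕ, c = (a : ℤ) + 1 := ⟨(c - 1).toNat, by omega⟩
  rw [show c = ((a + 1 : ℕ) : ℤ) by push_cast; omega] at hx
  apply (((mwPure_iff hq hR m).1 h) (a + 1)).1 x hx
  rw [pow_succ, Module.End.mul_apply, h0, map_zero]

lemma pc_le_exc {m : ℕ} {α : Ω} {w : ℤ} (hα : IsWeilNumber q w α) :
    R.pc (m, α) ≤ R.exc q m (w - m) := by
  refine le_iSup₂_of_le α ?_ le_rfl
  rwa [show (m : ℤ) + (w - m) = w by ring]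

/-- The image under `N` of a generalized eigenspace. -/
lemma map_pc [IsAlgClosed Ω] (hq : 1 < q) (hR : R.IsCoh q) {m : ℕ} (h : R.MWPure q m) {α : Ω}
    {w : ℤ} (hα : IsWeilNumber q w α) (hw : w ≤ m + 1) :
    (R.pc (m, α)).map R.N = R.pc (m, (q : Ω) ^ (-1 : ℤ) * α) := by
  have hq0 : (q : Ω) ≠ 0 := Nat.cast_ne_zero.2 (by omega)
  let J := {β : Ω // IsWeilNumber q w β}
  let A : J → Submodule Ω R.V := fun β => (R.pc (m, β.1)).map R.N
  let B : J → Submodule Ω R.V := fun β => R.pc (m, (q : Ω) ^ (-1 : ℤ) * β.1)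
  have hB : iSupIndep B := by
    refine (indep_pc hR).comp (f := fun β : J => (m, (q : Ω) ^ (-1 : ℤ) * β.1)) ?_
    intro β γ hβγ
    have h1 := (Prod.mk.inj hβγ).2
    exact Subtype.ext (mul_left_cancel₀ (zpow_ne_zero _ hq0) h1)
  have hAB : ∀ i, A i ≤ B i := by
    intro i y hy
    obtain ⟨x, hx, rfl⟩ := Submodule.mem_map.1 hy
    exact N_pc hq hR m i.1 x hx
  have hs : ⨆ i, B i ≤ ⨆ i, A i := by
    refine iSup_le fun β y hy => ?_
    have h3 := β.2.twist (by omega : q ≠ 0) (-1)
    have h4 := pc_le_exc (m := m) h3 hy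
    rw [show w + 2 * (-1) - (m : ℤ) = (w - m) - 2 by ring] at h4
    obtain ⟨x, hx, rfl⟩ := N_surj hq hR h (by omega) y h4
    have h5 : R.exc q m (w - m) ≤ (⨆ i, A i).comap R.N := by
      refine iSup₂_le fun γ hγ z hz => ?_
      rw [show (m : ℤ) + (w - m) = w by ring] at hγ
      exact Submodule.mem_iSup_of_mem (⟨γ, hγ⟩ : J) (Submodule.mem_map_of_mem hz)
    exact h5 hx
  exact eq_of_iSup hB hAB hs ⟨α, hα⟩

lemma kmult_low [IsAlgClosed Ω] (hq : 1 < q) (hR : R.IsCoh q) {m : ℕ} (h : R.MWPure q m) {α : Ω}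
    {w : ℤ} (hα : IsWeilNumber q w α) (hw : w ≤ m) :
    kmult R m α = mult R m α - mult R m ((q : Ω) ^ (-1 : ℤ) * α) := by
  have := hR.finite
  have h1 := finrank_map_ker R.N (R.pc (m, α))
  rw [map_pc hq hR h hα (by omega)] at h1
  have h2 : mult R m α = finrank Ω (R.pc (m, α)) := rfl
  have h3 : mult R m ((q : Ω) ^ (-1 : ℤ) * α) =
    finrank Ω (R.pc (m, (q : Ω) ^ (-1 : ℤ) * α)) := rfl
  unfold kmult
  omega

lemma kmult_high [IsAlgClosed Ω] (hq : 1 < q) (hR : R.IsCoh q) {m : ℕ} (h : R.MWPure q m) {α : Ω}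
    {w : ℤ} (hα : IsWeilNumber q w α) (hw : (m : ℤ) < w) : kmult R m α = 0 := by
  have h1 : (LinearMap.ker R.N ⊓ R.pc (m, α) : Submodule Ω R.V) = ⊥ := by
    rw [Submodule.eq_bot_iff]
    intro x hx
    obtain ⟨h1, h2⟩ := Submodule.mem_inf.1 hx
    exact N_inj hq hR h (by omega) x (pc_le_exc hα h2) (LinearMap.mem_ker.1 h1)
  unfold kmult
  rw [h1, finrank_bot]

/-- The kernel of `N` on `H^m`. -/
def kerN (R : Coh.{v, w} Ω) (m : ℕ) : Submodule Ω R.V := LinearMap.ker R.N ⊓ R.gr m

lemma kerN_F (hR : R.IsCoh q) (m : ℕ) : ∀ x ∈ kerN R m, R.F x ∈ kerN R m := by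
  intro x hx
  obtain ⟨h1, h2⟩ := Submodule.mem_inf.1 hx
  refine Submodule.mem_inf.2 ⟨?_, hR.F_gr m x h2⟩
  rw [LinearMap.mem_ker] at h1 ⊢
  rw [hR.N_F, h1, map_zero, smul_zero]

omit [CharZero Ω] in
lemma rootMultiplicity_ker [Module.Finite Ω R.V] {m : ℕ}
    (hF : ∀ x ∈ kerN R m, R.F x ∈ kerN R m) (α : Ω) :
    (R.F.restrict hF).charpoly.rootMultiplicity α = kmult R m α := by
  rw [← LinearMap.finrank_maxGenEigenspace_eq]
  unfold Module.End.maxGenEigenspace
  rw [Module.End.genEigenspace_restrict, ← Submodule.finrank_map_subtype_eq (kerN R m),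
    Submodule.map_comap_subtype]
  unfold kmult kerN Coh.pc
  rw [inf_assoc]

/-- The kernel of `N` is the direct sum of its parts. -/
lemma iSup_kerN (hR : R.IsCoh q) : ⨆ m, kerN R m = LinearMap.ker R.N := by
  classical
  apply le_antisymm (iSup_le fun m => inf_le_left)
  intro x hx
  have hind := hR.isInternal.submodule_iSupIndep
  rw [iSupIndep_iff_finsetSum_eq_zero_imp_eq_zero] at hind
  have hx' : x ∈ ⨆ m, R.gr m := by
    rw [hR.isInternal.submodule_iSup_eq_top]
    exact Submodule.mem_top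
  obtain ⟨f, hf, hfx⟩ := (Submodule.mem_iSup_iff_exists_finsupp _ _).1 hx'
  rw [Finsupp.sum] at hfx
  have h0 : ∑ m ∈ f.support, R.N (f m) = 0 := by
    rw [← map_sum, hfx]
    exact hx
  have h1 := hind f.support _ (fun i _ => hR.N_gr i _ (hf i)) h0
  rw [← hfx]
  refine Submodule.sum_mem _ fun m hm => Submodule.mem_iSup_of_mem m ?_
  exact Submodule.mem_inf.2 ⟨LinearMap.mem_ker.2 (h1 m hm), hf m⟩

lemma inv_eq_card (hR : R.IsCoh q) :
    R.inv = Nat.card (Σ m, Fin (finrank Ω (kerN R m))) := by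
  classical
  have := hR.finite
  have hi : iSupIndep (kerN R) := hR.isInternal.submodule_iSupIndep.mono fun m => inf_le_right
  have h1 := finrank_internal (internal_comap' hi (iSup_kerN hR))
  unfold Coh.inv
  rw [h1]
  congr 1
  have h2 : ∀ m, finrank Ω ((kerN R m).comap (LinearMap.ker R.N).subtype) =
      finrank Ω (kerN R m) := fun m => finrank_comap inf_le_left
  simp only [h2]

end

section rat

variable {Ω : Type w} [Field Ω] [CharZero Ω]

lemma rootMultiplicity_irr {g : ℚ[X]} (hg : Irreducible g) (hm : g.Monic) (α : Ω) [Decidable (minpoly ℚ α = g)] :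
    (g.map (algebraMap ℚ Ω)).rootMultiplicity α = if minpoly ℚ α = g then 1 else 0 := by
  by_cases h : aeval α g = 0
  · have h1 : g = minpoly ℚ α := minpoly.eq_of_irreducible_of_monic hg h hm
    rw [if_pos h1.symm]
    have h2 : (g.map (algebraMap ℚ Ω)).Separable := hg.separable.map
    have h3 := rootMultiplicity_le_one_of_separable h2 α
    have h4 : 0 < (g.map (algebraMap ℚ Ω)).rootMultiplicity α := by
      rw [Polynomial.rootMultiplicity_pos (Polynomial.map_monic_ne_zero hm)]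
      rw [IsRoot.def, eval_map_algebraMap]
      exact h
    omega
  · rw [if_neg]
    · apply Polynomial.rootMultiplicity_eq_zero
      rw [IsRoot.def, eval_map_algebraMap]
      exact h
    · intro h1
      apply h
      rw [← h1]
      exact minpoly.aeval ℚ α

/-- A root in `\bar ℚ` of the polynomial `g` (if there is one). -/
noncomputable def zroot (g : ℚ[X]) : AlgebraicClosure ℚ := by
  classical
  exact if h : ∃ z : AlgebraicClosure ℚ, minpoly ℚ z = g then h.choose else 0

/-- The multiplicity of `z` on the kernel of `N` predicted by the weights. -/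
noncomputable def expo (q m : ℕ) (P : ℚ[X]) (z : AlgebraicClosure ℚ) : ℕ :=
  if Coh.wtf q z ≤ m then
    (P.map (algebraMap ℚ (AlgebraicClosure ℚ))).rootMultiplicity z -
      (P.map (algebraMap ℚ (AlgebraicClosure ℚ))).rootMultiplicity
        ((q : AlgebraicClosure ℚ) ^ (-1 : ℤ) * z)
  else 0

open scoped Classical in
/-- The local factor predicted by the characteristic polynomial `P` on `H^m` and the weights. -/
noncomputable def localQ (q m : ℕ) (P : ℚ[X]) : ℚ[X] :=
  ∏ g ∈ (UniqueFactorizationMonoid.normalizedFactors P).toFinset, g ^ expo q m P (zroot g)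

lemma localQ_monic (q m : ℕ) {P : ℚ[X]} (hP : P ≠ 0) : (localQ q m P).Monic := by
  classical
  unfold localQ
  refine Polynomial.monic_prod_of_monic _ _ fun g hg => ?_
  rw [Multiset.mem_toFinset, Polynomial.mem_normalizedFactors_iff hP] at hg
  exact hg.2.1.pow _

open scoped Classical in
lemma rootMultiplicity_localQ (q m : ℕ) {P : ℚ[X]} (hP : P ≠ 0) (α : Ω) :
    ((localQ q m P).map (algebraMap ℚ Ω)).rootMultiplicity α =
      if (P.map (algebraMap ℚ Ω)).IsRoot α then expo q m P (zroot (minpoly ℚ α)) else 0 := by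
  classical
  have hne : (localQ q m P).map (algebraMap ℚ Ω) ≠ 0 :=
    Polynomial.map_monic_ne_zero (localQ_monic q m hP)
  have hne' := hne
  unfold localQ at hne ⊢
  rw [Polynomial.map_prod] at hne ⊢
  rw [← Polynomial.count_roots, Polynomial.roots_prod _ _ hne, Multiset.count_bind,
    ← Finset.sum_eq_multiset_sum]
  have h1 : ∀ g ∈ (UniqueFactorizationMonoid.normalizedFactors P).toFinset,
      Multiset.count α ((g ^ expo q m P (zroot g)).map (algebraMap ℚ Ω)).roots =
        if minpoly ℚ α = g then expo q m P (zroot g) else 0 := by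
    intro g hg
    rw [Multiset.mem_toFinset, Polynomial.mem_normalizedFactors_iff hP] at hg
    rw [Polynomial.map_pow, Polynomial.roots_pow, Multiset.count_nsmul, Polynomial.count_roots,
      rootMultiplicity_irr hg.1 hg.2.1 α]
    split_ifs <;> simp
  rw [Finset.sum_congr rfl h1, Finset.sum_ite_eq]
  have hmem : minpoly ℚ α ∈ (UniqueFactorizationMonoid.normalizedFactors P).toFinset ↔
      Irreducible (minpoly ℚ α) ∧ (minpoly ℚ α).Monic ∧ minpoly ℚ α ∣ P := by
    rw [Multiset.mem_toFinset, Polynomial.mem_normalizedFactors_iff hP]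
  by_cases hr : (P.map (algebraMap ℚ Ω)).IsRoot α
  · rw [if_pos hr, if_pos]
    rw [hmem]
    have h2 : aeval α P = 0 := by
      rw [← eval_map_algebraMap]
      exact hr
    have h3 : IsIntegral ℚ α := (show IsAlgebraic ℚ α from ⟨P, hP, h2⟩).isIntegral
    exact ⟨minpoly.irreducible h3, minpoly.monic h3, minpoly.dvd ℚ α h2⟩
  · rw [if_neg hr, if_neg]
    rw [hmem]
    rintro ⟨-, -, h2⟩
    apply hr
    obtain ⟨Q, hQ⟩ := h2
    rw [IsRoot.def, eval_map_algebraMap, hQ, map_mul, minpoly.aeval, zero_mul]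

/-- An embedding which maps a conjugate to `α`. -/
lemma exists_emb [IsAlgClosed Ω] {α : Ω} (hα : IsIntegral ℚ α) :
    ∃ j : AlgebraicClosure ℚ →ₐ[ℚ] Ω, j (zroot (minpoly ℚ α)) = α := by
  classical
  have := algC
  have h1 : ∃ z : AlgebraicClosure ℚ, minpoly ℚ z = minpoly ℚ α := by
    obtain ⟨z, hz⟩ := IsAlgClosed.exists_aeval_eq_zero (AlgebraicClosure ℚ) (minpoly ℚ α)
      (minpoly.degree_pos hα).ne'
    exact ⟨z, (minpoly.eq_of_irreducible_of_monic (minpoly.irreducible hα) hz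
      (minpoly.monic hα)).symm⟩
  have h2 : minpoly ℚ (zroot (minpoly ℚ α)) = minpoly ℚ α := by
    unfold zroot
    rw [dif_pos h1]
    exact h1.choose_spec
  have h3 : aeval α (minpoly ℚ (zroot (minpoly ℚ α))) = 0 := by
    rw [h2]
    exact minpoly.aeval ℚ α
  exact IntermediateField.exists_algHom_of_splits_of_aeval (fun s =>
    ⟨(algC.isAlgebraic s).isIntegral, IsAlgClosed.splits _⟩) h3

end rat

section

variable {Ω : Type w} [Field Ω] [CharZero Ω] [IsAlgClosed Ω] {R : Coh.{v, w} Ω} {q : ℕ}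

/-- If `H^m` is mw pure, the characteristic polynomial of `F` on the kernel of `N` is determined by
the characteristic polynomial of `F` on `H^m`. -/
theorem charpoly_ker [Module.Finite Ω R.V] (hq : 1 < q) (hR : R.IsCoh q) {m : ℕ}
    (h : R.MWPure q m) {P : ℚ[X]} (hP : charP R m = P.map (algebraMap ℚ Ω))
    (hF : ∀ x ∈ kerN R m, R.F x ∈ kerN R m) :
    (R.F.restrict hF).charpoly = (localQ q m P).map (algebraMap ℚ Ω) := by
  classical
  have hP0 : P ≠ 0 := by
    rintro rfl
    rw [Polynomial.map_zero] at hP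
    exact charP_ne_zero hR m hP
  have hroots : (R.F.restrict hF).charpoly.roots =
      ((localQ q m P).map (algebraMap ℚ Ω)).roots := by
    ext α
    rw [Polynomial.count_roots, Polynomial.count_roots, rootMultiplicity_ker hF,
      rootMultiplicity_localQ q m hP0]
    have hm : ∀ β : Ω, mult R m β = (P.map (algebraMap ℚ Ω)).rootMultiplicity β := fun β => by
      rw [← hP, rootMultiplicity_charP hR]
    have hPm : P.map (algebraMap ℚ Ω) ≠ 0 := (Polynomial.map_ne_zero_iff
      (algebraMap ℚ Ω).injective).2 hP0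
    by_cases hr : (P.map (algebraMap ℚ Ω)).IsRoot α
    · rw [if_pos hr]
      have h1 : mult R m α ≠ 0 := by
        rw [hm]
        exact ((Polynomial.rootMultiplicity_pos hPm).2 hr).ne'
      have h2 := mult_wt hq hR h1
      have hint : IsIntegral ℚ α := h2.1.isIntegral
      obtain ⟨j, hj⟩ := exists_emb hint
      set z := zroot (minpoly ℚ α) with hz
      have hrm : ∀ y : AlgebraicClosure ℚ, (P.map (algebraMap ℚ Ω)).rootMultiplicity (j y) =
          (P.map (algebraMap ℚ (AlgebraicClosure ℚ))).rootMultiplicity y := by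
        intro y
        have h3 : P.map (algebraMap ℚ Ω) =
            (P.map (algebraMap ℚ (AlgebraicClosure ℚ))).map (j : AlgebraicClosure ℚ →+* Ω) := by
          rw [Polynomial.map_map]
          congr 1
          exact (j.comp_algebraMap).symm
        rw [h3]
        exact (Polynomial.eq_rootMultiplicity_map (f := (j : AlgebraicClosure ℚ →+* Ω))
          j.toRingHom.injective y).symm
      have hwt : Coh.wtf q z = Coh.wtf q α := by
        rw [← hj]
        exact (wtf_map q j z).symm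
      have hj2 : j ((q : AlgebraicClosure ℚ) ^ (-1 : ℤ) * z) = (q : Ω) ^ (-1 : ℤ) * α := by
        rw [map_mul, map_zpow₀, map_natCast, hj]
      unfold expo
      rw [← hrm, ← hrm, hj, hj2, hwt]
      split_ifs with hle
      · rw [kmult_low hq hR h h2 hle, hm, hm]
      · exact kmult_high hq hR h h2 (by omega)
    · rw [if_neg hr]
      have h1 : mult R m α = 0 := by
        rw [hm]
        exact Polynomial.rootMultiplicity_eq_zero hr
      have h2 : kmult R m α ≤ mult R m α := Submodule.finrank_mono inf_le_right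
      omega
  have hs1 : (R.F.restrict hF).charpoly.Splits := IsAlgClosed.splits _
  have hs2 : ((localQ q m P).map (algebraMap ℚ Ω)).Splits := IsAlgClosed.splits _
  rw [hs1.eq_prod_roots_of_monic (LinearMap.charpoly_monic _), hroots,
    ← hs2.eq_prod_roots_of_monic ((localQ_monic q m hP0).map _)]

end

section

variable {Ω : Type w} [Field Ω] [CharZero Ω] {R : Coh.{v, w} Ω} {q : ℕ}
  {Ω' : Type w'} [Field Ω'] [CharZero Ω'] {R' : Coh.{v', w'} Ω'}

lemma inv_congr (hR : R.IsCoh q) (hR' : R'.IsCoh q)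
    (h : ∀ m, finrank Ω (kerN R m) = finrank Ω' (kerN R' m)) : R.inv = R'.inv := by
  rw [inv_eq_card hR, inv_eq_card hR']
  simp only [h]

lemma finrank_tot_card (hq : 1 < q) (hR : R.IsCoh q) (c : ℤ) :
    finrank Ω (R.tot q c) = Nat.card (Σ m, Fin (finrank Ω (R.exc q m c))) := by
  classical
  have := hR.finite
  have hi : iSupIndep (fun m => R.exc q m c) :=
    (indep_exc hq hR).comp (f := fun m : ℕ => (m, c)) (fun _ _ h => (Prod.mk.inj h).1)
  rw [finrank_internal (internal_comap' (S := R.tot q c) hi rfl)]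
  have h2 : ∀ m, finrank Ω ((R.exc q m c).comap (R.tot q c).subtype) =
      finrank Ω (R.exc q m c) := fun m => finrank_comap (exc_le_tot m c)
  simp only [h2]

end

section

variable {Ω : Type w} [Field Ω] [CharZero Ω] [IsAlgClosed Ω] {R : Coh.{v, w} Ω} {q : ℕ}
  {Ω' : Type w'} [Field Ω'] [CharZero Ω'] [IsAlgClosed Ω'] {R' : Coh.{v', w'} Ω'}

/-- The characteristic polynomials of `F` in the two theories are one rational polynomial, for every
degree. -/
def SameChar (R : Coh.{v, w} Ω) (R' : Coh.{v', w'} Ω') : Prop :=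
  ∀ m, ∃ L : ℚ[X], charP R m = L.map (algebraMap ℚ Ω) ∧ charP R' m = L.map (algebraMap ℚ Ω')

lemma tot_congr (hq : 1 < q) (hR : R.IsCoh q) (hR' : R'.IsCoh q) (h : SameChar R R') (c : ℤ) :
    finrank Ω (R.tot q c) = finrank Ω' (R'.tot q c) := by
  have h1 : ∀ m, finrank Ω (R.exc q m c) = finrank Ω' (R'.exc q m c) := by
    intro m
    obtain ⟨L, hL, hL'⟩ := h m
    have h2 := weightsS_congr hq hR hR' (S := {m}) (P := L) (by simpa [charS] using hL)
      (by simpa [charS] using hL') (c + m)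
    rw [Finset.sum_singleton, Finset.sum_singleton, add_sub_cancel_right] at h2
    exact h2
  rw [finrank_tot_card hq hR, finrank_tot_card hq hR']
  simp only [h1]

/-- A bijection of adapted bases which respects the weights. -/
lemma exists_equiv (hq : 1 < q) (hR : R.IsCoh q) (hR' : R'.IsCoh q)
    (h : SameChar R R') (S : Strings (R.tot q) R.N) (S' : Strings (R'.tot q) R'.N) :
    ∃ e : S.P ≃ S'.P, ∀ p, S'.wt (e p) = S.wt p := by
  classical
  have h1 : ∀ c : ℤ, Nat.card {p // S.wt p = c} = Nat.card {p // S'.wt p = c} := by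
    intro c
    rw [← (adp_strings S).finrank_tot hq hR, ← (adp_strings S').finrank_tot hq hR']
    exact tot_congr hq hR hR' h c
  let E : ∀ c : ℤ, {p // S.wt p = c} ≃ {p // S'.wt p = c} := fun c => Nonempty.some (by
    rw [← Finite.card_eq]
    exact h1 c)
  exact ⟨Equiv.ofFiberEquiv E, fun p => Equiv.ofFiberEquiv_map E p⟩

end

section

variable {K : Type u} [Field K] {Ω : Type w} [Field Ω] [CharZero Ω] [IsAlgClosed Ω]
  {T : Theory.{u, v, w} K Ω} {q : ℕ} {P : SmVar.{u} K → Prop}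

/-- If the weights of the basis are the right ones, then `X` is mw pure. -/
lemma pure_of_adp (hT : V1157.MW.IsLocalOn T q P) (hq : 1 < q) {X : SmVar.{u} K} (hX : P X)
    {I : Type} [Fintype I] {a : I → ℤ} (H : (T.H X).Adp q a a) : ∀ m, (T.H X).MWPure q m := by
  rw [← V1157.MW.square_iff' hT hq hX]
  obtain ⟨κ, hκ⟩ := hT.kunneth X X hX hX
  have H2 := H.prod H (by omega) hκ
  rw [H2.inv_eq V1157.MW.b1, H2.pred_eq hq (hT.coh _ (hT.prod X X hX hX))]

lemma adp_of_pure (hT : V1157.MW.IsLocalOn T q P) (hq : 1 < q) {X : SmVar.{u} K} (hX : P X)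
    (h : ∀ m, (T.H X).MWPure q m) (S : Strings ((T.H X).tot q) (T.H X).N) :
    (T.H X).Adp q S.ct S.ct := by
  rw [mw_iff hq (hT.coh X hX) S] at h
  have h1 : S.ct = S.wt := by
    funext p
    unfold Strings.ct Strings.wt
    rw [h p.1]
  have := adp_strings S
  rwa [← h1] at this

/-- The powers of a mw pure variety are mw pure. -/
theorem pure_pow (hT : V1157.MW.IsLocalOn T q P) (hq : 1 < q) {X : SmVar.{u} K} (hX : P X)
    (h : ∀ m, (T.H X).MWPure q m) (n : ℕ) : ∀ m, (T.H (pow X n)).MWPure q m := by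
  obtain ⟨S⟩ := exists_strings hq (hT.coh X hX)
  have H := V1157.MW.adp_pow' hT hq hX (adp_of_pure hT hq hX h S) n
  exact pure_of_adp hT hq (hT.pow hX n) H

theorem pure_prod (hT : V1157.MW.IsLocalOn T q P) (hq : 1 < q) {X Y : SmVar.{u} K} (hX : P X)
    (hY : P Y) (h : ∀ m, (T.H X).MWPure q m) (h' : ∀ m, (T.H Y).MWPure q m) :
    ∀ m, (T.H (X.prod Y)).MWPure q m := by
  obtain ⟨S⟩ := exists_strings hq (hT.coh X hX)
  obtain ⟨S'⟩ := exists_strings hq (hT.coh Y hY)
  obtain ⟨κ, hκ⟩ := hT.kunneth X Y hX hY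
  have H := (adp_of_pure hT hq hX h S).prod (adp_of_pure hT hq hY h' S') (by omega) hκ
  exact pure_of_adp hT hq (hT.prod X Y hX hY) H

end

section

variable {K : Type u} [Field K] {Ω : Type w} [Field Ω] [CharZero Ω] [IsAlgClosed Ω]
  {T : Theory.{u, v, w} K Ω} {q : ℕ} {Ω' : Type w'} [Field Ω'] [CharZero Ω'] [IsAlgClosed Ω']
  {T' : Theory.{u, v', w'} K Ω'} {P : SmVar.{u} K → Prop}

/-- The prediction for `X × X` is the same for the two theories. -/
theorem pred_square (hT : V1157.MW.IsLocalOn T q P) (hT' : V1157.MW.IsLocalOn T' q P)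
    (hq : 1 < q) {X : SmVar.{u} K} (hX : P X) (h : SameChar (T.H X) (T'.H X)) :
    (T.H (X.prod X)).pred q = (T'.H (X.prod X)).pred q := by
  classical
  obtain ⟨S⟩ := exists_strings hq (hT.coh X hX)
  obtain ⟨S'⟩ := exists_strings hq (hT'.coh X hX)
  obtain ⟨κ, hκ⟩ := hT.kunneth X X hX hX
  obtain ⟨κ', hκ'⟩ := hT'.kunneth X X hX hX
  have H := (adp_strings S).prod (adp_strings S) (by omega) hκ
  have H' := (adp_strings S').prod (adp_strings S') (by omega) hκ'
  rw [H.pred_eq hq (hT.coh _ (hT.prod X X hX hX)), H'.pred_eq hq (hT'.coh _ (hT'.prod X X hX hX))]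
  obtain ⟨e, he⟩ := exists_equiv hq (hT.coh X hX) (hT'.coh X hX) h S S'
  refine Nat.card_congr ((Equiv.prodCongr e e).subtypeEquiv ?_)
  rintro ⟨p, p'⟩
  simp only [Equiv.prodCongr_apply, Prod.map_apply, he]

/-- The comparison of the kernels of `N` on `X × X`. -/
theorem inv_square (hT : V1157.MW.IsLocalOn T q P) (hT' : V1157.MW.IsLocalOn T' q P)
    (hq : 1 < q) {X : SmVar.{u} K} (hX : P X) (h : SameChar (T.H X) (T'.H X))
    (h0 : ∀ m, (T'.H X).MWPure q m) :
    (T'.H (X.prod X)).inv ≤ (T.H (X.prod X)).inv ∧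
      ((T.H (X.prod X)).inv = (T'.H (X.prod X)).inv ↔ ∀ m, (T.H X).MWPure q m) := by
  have h1 := (V1157.MW.square_iff' hT' hq hX).2 h0
  have h2 := pred_square hT hT' hq hX h
  rw [h1, ← h2, V1157.MW.square_iff' hT hq hX]
  exact ⟨pred_le_inv V1157.MW.b1 hq (hT.coh _ (hT.prod X X hX hX)), Iff.rfl⟩

end

end Pool.Agent.V2450.WM
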