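import Pool.Agent.V2450.WM.Pair

/-!
# The Hodge level bounds the weights and the monodromy
-/

set_option autoImplicit false

open Module Polynomial

namespace Pool.Agent.V2450.WM

universe u v w v' w'

open Pool.Agent.Y143 Pool.Agent.Y163.MW Pool.Agent.Y163.MX

variable {Ω : Type w} [Field Ω] [CharZero Ω] {R : Coh.{v, w} Ω} {q : ℕ}

/-- All slopes are at least the smallest Hodge slope. -/
lemma slope_ge {val : Ω → ℝ} {m : ℕ} {hdg : ℕ → ℕ} (h : NewtonAboveHodge R val m hdg) {s : ℝ}
    (hs : ∀ a : ℕ, hdg a ≠ 0 → s ≤ a) {α : Ω} (hα : mult R m α ≠ 0) : s ≤ val α := by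
  classical
  obtain ⟨n, x, a, hx, ha, hmx, -, hle, -⟩ := h
  rw [← hx α] at hα
  have hne : Nonempty {i // x i = α} := by
    by_contra hcon
    rw [not_nonempty_iff] at hcon
    exact hα Nat.card_of_isEmpty
  obtain ⟨i, rfl⟩ := hne
  have hn : 0 < n := i.pos
  let i0 : Fin n := ⟨0, hn⟩
  have h1 := hle 1
  have h2 : Finset.univ.filter (fun i : Fin n => (i : ℕ) < 1) = {i0} := by
    ext j
    simp only [Finset.mem_filter, Finset.mem_univ, true_and, Finset.mem_singleton]
    constructor
    · intro h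
      apply Fin.ext
      show (j : ℕ) = 0
      omega
    · rintro rfl
      show 0 < 1
      omega
  rw [h2, Finset.sum_singleton, Finset.sum_singleton] at h1
  have h3 : s ≤ a i0 := by
    apply hs
    rw [← ha (a i0)]
    have : Nonempty {j // a j = a i0} := ⟨⟨i0, rfl⟩⟩
    exact Nat.card_pos.ne'
  have h4 : val (x i0) ≤ val (x i) := hmx (by
    show (0 : ℕ) ≤ i
    omega)
  linarith

/-- The weights of the eigenvalues in terms of the Hodge level. -/
lemma weight_level [IsAlgClosed Ω] (hq : 1 < q) (hR : R.IsCoh q) {m : ℕ}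
    (hrat : RationalPoly (charP R m)) {val : Ω → ℝ} (hv : IsVal q val) {hdg : ℕ → ℕ}
    (h : NewtonAboveHodge R val m hdg) {r : ℕ} (hr : ∀ a : ℕ, hdg a ≠ 0 → m ≤ 2 * a + r) {α : Ω}
    (hα : mult R m α ≠ 0) : |Coh.wtf q α - (m : ℤ)| ≤ r := by
  have hs : ∀ a : ℕ, hdg a ≠ 0 → ((m : ℝ) - r) / 2 ≤ a := by
    intro a ha
    have h1 : (m : ℝ) ≤ 2 * a + r := by exact_mod_cast hr a ha
    linarith
  have key : ∀ β : Ω, mult R m β ≠ 0 → (m : ℤ) - r ≤ Coh.wtf q β := by
    intro β hβ
    have hw := mult_wt hq hR hβ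
    have h0 : β ≠ 0 := weil_ne_zero (by omega) hw
    have h1 := slope_ge h hs hβ
    have h2 : mult R m ((q : Ω) ^ (Coh.wtf q β) / β) ≠ 0 := by
      rw [mult_conj hq hR hrat hw]
      exact hβ
    have h3 := slope_ge h hs h2
    rw [isVal_div hq hv _ h0] at h3
    have h4 : ((m : ℝ) - r) ≤ Coh.wtf q β := by linarith
    have h5 : (((m : ℤ) - r : ℤ) : ℝ) ≤ ((Coh.wtf q β : ℤ) : ℝ) := by
      push_cast
      exact h4
    exact_mod_cast h5
  have hw := mult_wt hq hR hα
  have h0 : α ≠ 0 := weil_ne_zero (by omega) hw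
  have h1 := key α hα
  have h2 : mult R m ((q : Ω) ^ m / α) ≠ 0 := by
    rw [mult_dual hq hR m h0]
    exact hα
  have h3 := key _ h2
  have h4 := Coh.wtf_eq hq (weil_div hq (m : ℤ) hw)
  rw [zpow_natCast] at h4
  rw [h4] at h3
  rw [abs_le]
  constructor <;> linarith

/-- The parts of large excess vanish. -/
lemma exc_level [IsAlgClosed Ω] (hq : 1 < q) (hR : R.IsCoh q) {m : ℕ} {r : ℕ}
    (h : ∀ α, mult R m α ≠ 0 → |Coh.wtf q α - (m : ℤ)| ≤ r) {c : ℤ} (hc : (r : ℤ) < |c|) :
    finrank Ω (R.exc q m c) = 0 := by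
  classical
  obtain ⟨I, _, b, p, hb⟩ := exists_basis hR
  rw [finrank_exc hq hR hb]
  have : IsEmpty {i // ((p i).1, Coh.wtf q (p i).2 - ((p i).1 : ℤ)) = (m, c)} := by
    refine ⟨fun i => ?_⟩
    have h1 := i.2
    rw [Prod.ext_iff] at h1
    simp only at h1
    have h2 : mult R m (p i.1).2 ≠ 0 := by
      rw [mult_eq_card hR hb]
      have : Nonempty {j // p j = (m, (p i.1).2)} := ⟨⟨i.1, Prod.ext h1.1 rfl⟩⟩
      exact Nat.card_pos.ne'
    have h3 := h _ h2
    rw [h1.1] at h1
    rw [h1.2] at h3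
    omega
  exact Nat.card_of_isEmpty

/-- Symmetry of the excesses in one degree. -/
lemma finrank_exc_neg [IsAlgClosed Ω] (hq : 1 < q) (hR : R.IsCoh q) (m : ℕ) (c : ℤ) :
    finrank Ω (R.exc q m (-c)) = finrank Ω (R.exc q m c) := by
  classical
  obtain ⟨I, _, b, p, hb⟩ := exists_basis hR
  have h1 : ∀ c : ℤ, (finrank Ω (R.exc q m c) : ℝ) =
      ∑ᶠ x : Ω, (if Coh.wtf q x = m + c then (1 : ℝ) else 0) * (mult R m x : ℝ) := by
    intro c
    rw [finsum_mult hR hb m (fun x => if Coh.wtf q x = m + c then (1 : ℝ) else 0),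
      finrank_exc hq hR hb, Finset.sum_boole]
    congr 1
    have e : Nat.card {i // ((p i).1, Coh.wtf q (p i).2 - ((p i).1 : ℤ)) = (m, c)} =
        Nat.card {i : {i // (p i).1 = m} // Coh.wtf q (p i.1).2 = m + c} := by
      refine Nat.card_congr ?_
      refine (Equiv.subtypeEquivRight fun i => ?_).trans
        (Equiv.subtypeSubtypeEquivSubtypeInter (fun i => (p i).1 = m)
          (fun i => Coh.wtf q (p i).2 = m + c)).symm
      rw [Prod.ext_iff]
      constructor
      · rintro ⟨h1, h2⟩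
        simp only at h1 h2
        refine ⟨h1, ?_⟩
        rw [h1] at h2
        linarith
      · rintro ⟨h1, h2⟩
        refine ⟨h1, ?_⟩
        simp only
        rw [h1, h2]
        ring
    rw [e, Nat.card_eq_fintype_card, Fintype.card_subtype]
  have hfin : ∀ g : Ω → ℝ, (Function.support fun α => g α * (mult R m α : ℝ)).Finite := by
    intro g
    refine (finite_mult hR m).subset fun α hα h0 => hα ?_
    simp only
    rw [h0]
    simp
  have h2 : ∑ᶠ x : Ω, ((if Coh.wtf q x = m + -c then (1 : ℝ) else 0) -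
      (if Coh.wtf q x = m + c then (1 : ℝ) else 0)) * (mult R m x : ℝ) = 0 := by
    refine finsum_antisymm (finite_mult hR m) (fun α => (q : Ω) ^ (m : ℤ) / α) ?_ _ ?_
    · intro α hα
      have h0 : α ≠ 0 := weil_ne_zero (by omega) (mult_wt hq hR hα)
      have hq0 : (q : Ω) ≠ 0 := Nat.cast_ne_zero.2 (by omega)
      refine ⟨?_, div_div_cancel₀ (zpow_ne_zero _ hq0)⟩
      rw [zpow_natCast]
      exact mult_dual hq hR m h0
    · intro α hα
      rw [Coh.wtf_eq hq (weil_div hq (m : ℤ) (mult_wt hq hR hα))]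
      have e1 : (2 * (m : ℤ) - Coh.wtf q α = m + -c) = (Coh.wtf q α = m + c) := by
        apply propext
        constructor <;> intro h <;> linarith
      have e2 : (2 * (m : ℤ) - Coh.wtf q α = m + c) = (Coh.wtf q α = m + -c) := by
        apply propext
        constructor <;> intro h <;> linarith
      simp only [e1, e2]
      ring
  have h3 : (finrank Ω (R.exc q m (-c)) : ℝ) - (finrank Ω (R.exc q m c) : ℝ) =
      ∑ᶠ x : Ω, ((if Coh.wtf q x = m + -c then (1 : ℝ) else 0) -
      (if Coh.wtf q x = m + c then (1 : ℝ) else 0)) * (mult R m x : ℝ) := by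
    rw [h1, h1, ← finsum_sub_distrib (hfin _) (hfin _)]
    exact finsum_congr fun α => by ring
  rw [h2] at h3
  have h4 : (finrank Ω (R.exc q m (-c)) : ℝ) = (finrank Ω (R.exc q m c) : ℝ) := by linarith
  exact_mod_cast h4

variable [IsAlgClosed Ω]

/-- If the excesses are at most `r`, then `N ^ (r + 1) = 0` on `H^m`. -/
theorem nilp_level (hq : 1 < q) (hR : R.IsCoh q) {m r : ℕ}
    (h : ∀ c : ℤ, (r : ℤ) < |c| → R.exc q m c = ⊥) : ∀ x ∈ R.gr m, (R.N ^ (r + 1)) x = 0 := by
  have hNk : ∀ (k : ℕ) (c : ℤ), ∀ x ∈ R.exc q m c, (R.N ^ k) x ∈ R.exc q m (c - 2 * k) := by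
    intro k
    induction k with
    | zero => intro c x hx; simpa using hx
    | succ k ih =>
      intro c x hx
      rw [pow_succ', Module.End.mul_apply]
      have := Coh.N_exc hq hR m _ _ (ih c x hx)
      rwa [show c - 2 * (k : ℤ) - 2 = c - 2 * ((k + 1 : ℕ) : ℤ) by push_cast; ring] at this
  have h1 : R.gr m ≤ LinearMap.ker (R.N ^ (r + 1)) := by
    rw [← Coh.iSup_exc hR m]
    refine iSup_le fun c x hx => ?_
    rw [LinearMap.mem_ker]
    have h2 := hNk (r + 1) c x hx
    by_cases hc : (r : ℤ) < |c|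
    · rw [h c hc, Submodule.mem_bot] at hx
      rw [hx, map_zero]
    · have h3 : (r : ℤ) < |c - 2 * ((r + 1 : ℕ) : ℤ)| := by
        push Not at hc
        rw [abs_le] at hc
        push_cast
        rw [lt_abs]
        right
        linarith
      rw [h _ h3, Submodule.mem_bot] at h2
      exact h2
  exact fun x hx => LinearMap.mem_ker.1 (h1 hx)

/-- Excess zero: the monodromy-weight conjecture holds. -/
theorem pure_zero (hq : 1 < q) (hR : R.IsCoh q) {m : ℕ}
    (h : ∀ c : ℤ, 0 < |c| → R.exc q m c = ⊥) : R.MWPure q m := by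
  rw [Coh.mwPure_iff hq hR m]
  intro a
  rcases Nat.eq_zero_or_pos a with rfl | ha
  · refine ⟨fun x _ hx => by simpa using hx, fun y hy => ⟨y, by simpa using hy, by simp⟩⟩
  · have h1 : R.exc q m a = ⊥ := h _ (by rw [abs_pos]; omega)
    have h2 : R.exc q m (-(a : ℤ)) = ⊥ := h _ (by rw [abs_pos]; omega)
    rw [h1, h2]
    refine ⟨fun x hx _ => (Submodule.mem_bot Ω).1 hx, fun y hy => ⟨0, Submodule.zero_mem _, ?_⟩⟩
    rw [map_zero, (Submodule.mem_bot Ω).1 hy]

/-- Excess at most one. -/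
theorem pure_one (hq : 1 < q) (hR : R.IsCoh q) {m : ℕ}
    (h : ∀ c : ℤ, 1 < |c| → R.exc q m c = ⊥) :
    R.MWPure q m ↔ finrank Ω ((R.gr m).map R.N) = finrank Ω (R.exc q m 1) := by
  rw [← (Coh.moment_deg hq hR m).2]
  have h1 : R.rankMoment m = 2 * finrank Ω ((R.gr m).map R.N) := by
    unfold Coh.rankMoment rankSum
    rw [finsum_eq_single _ 1]
    · push_cast
      rw [pow_one]
      try ring
    · intro k hk
      rcases Nat.eq_zero_or_pos k with rfl | hk0
      · simp
      · have h2 : (R.gr m).map (R.N ^ k) = ⊥ := by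
          rw [Submodule.eq_bot_iff]
          rintro _ ⟨x, hx, rfl⟩
          have h3 := nilp_level hq hR (r := 1) (fun c hc => h c (by exact_mod_cast hc)) x hx
          obtain ⟨j, rfl⟩ : ∃ j, k = j + (1 + 1) := ⟨k - 2, by omega⟩
          rw [pow_add, Module.End.mul_apply, h3, map_zero]
        rw [h2, finrank_bot]
        simp
  have h2 : R.weightMoment q m = 2 * finrank Ω (R.exc q m 1) := by
    unfold Coh.weightMoment squareSum
    rw [finsum_eq_sum_of_support_subset (s := {1, -1})]
    · rw [Finset.sum_pair (by norm_num), finrank_exc_neg hq hR]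
      try ring
    · intro c hc
      rw [Function.mem_support] at hc
      by_contra hcon
      apply hc
      rw [Finset.mem_coe, Finset.mem_insert, Finset.mem_singleton] at hcon
      push Not at hcon
      rcases eq_or_ne c 0 with rfl | h0
      · simp
      · have h3 : 1 < |c| := by
          rw [lt_abs]
          omega
        rw [h c h3, finrank_bot]
        simp
  rw [h1, h2]
  constructor
  · intro h
    have : (finrank Ω ((R.gr m).map R.N) : ℤ) = finrank Ω (R.exc q m 1) := by linarith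
    exact_mod_cast this
  · intro h
    rw [h]

end Pool.Agent.V2450.WM
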