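import Pool.Agent.V2450.WM.Cmp

/-!
# The sandwich and maximal monodromy in several degrees
-/

set_option autoImplicit false

open Module Polynomial

namespace Pool.Agent.V2450.WM

universe u v w

open Pool.Agent.Y143 Pool.Agent.Y163.MW Pool.Agent.Y163.MX

variable {Ω : Type w} [Field Ω] [CharZero Ω] [IsAlgClosed Ω] {R : Coh.{v, w} Ω} {q : ℕ}

/-- The sandwich in several degrees. -/
theorem sandwichS (hq : 1 < q) (hR : R.IsCoh q) {S : Finset ℕ} (hrat : RationalPoly (charS R S))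
    {val : Ω → ℝ} (hv : IsVal q val) {hdg : ℕ → ℕ → ℕ}
    (h : ∀ m ∈ S, NewtonAboveHodge R val m (hdg m)) :
    ∑ m ∈ S, R.rankMoment m ≤ ∑ m ∈ S, R.weightMoment q m ∧
      ∑ m ∈ S, (R.weightMoment q m : ℝ) ≤ ∑ m ∈ S, newtonMoment R val m ∧
      ∑ m ∈ S, newtonMoment R val m ≤ ∑ m ∈ S, (hodgeMoment m (hdg m) : ℝ) := by
  refine ⟨(rankS_le hq hR S).1, ?_, Finset.sum_le_sum fun m hm => (newton_le_hodge (h m hm)).1⟩
  rw [newton_eqS hq hR hrat hv]
  have : 0 ≤ ∑ m ∈ S, ∑ᶠ α : Ω, (2 * val α - Coh.wtf q α) ^ 2 * (mult R m α : ℝ) :=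
    Finset.sum_nonneg fun m _ =>
      finsum_nonneg fun α => mul_nonneg (sq_nonneg _) (Nat.cast_nonneg _)
  linarith

/-- The eigenvalues in the extremal case. -/
theorem extremal (hq : 1 < q) (hR : R.IsCoh q) {m : ℕ} {val : Ω → ℝ} {hdg : ℕ → ℕ}
    (h : NewtonAboveHodge R val m hdg)
    (e3 : newtonMoment R val m = (hodgeMoment m hdg : ℝ))
    (h0 : ∑ᶠ α : Ω, (2 * val α - Coh.wtf q α) ^ 2 * (mult R m α : ℝ) = 0) :
    (∀ α, mult R m α ≠ 0 → ∃ a : ℕ, hdg a ≠ 0 ∧ IsWeilNumber q (2 * (a : ℤ)) α ∧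
      val α = a) ∧ ∀ a : ℕ, finrank Ω (R.exc q m (2 * (a : ℤ) - m)) = hdg a := by
  classical
  obtain ⟨n, α, hα, a, ha, hva⟩ := (newton_le_hodge h).2 e3
  have h1 : ∑ i, (2 * val (α i) - (Coh.wtf q (α i) : ℝ)) ^ 2 = 0 := by
    rw [← finsum_fib α (fun x => (2 * val x - (Coh.wtf q x : ℝ)) ^ 2), ← h0]
    exact finsum_congr fun x => by rw [hα]
  have h2 : ∀ i, Coh.wtf q (α i) = 2 * (a i : ℤ) := by
    intro i
    have h3 := (Finset.sum_eq_zero_iff_of_nonneg (fun i _ => sq_nonneg _)).1 h1 i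
      (Finset.mem_univ i)
    have h4 := pow_eq_zero_iff (two_ne_zero) |>.1 h3
    rw [hva i] at h4
    have h5 : ((Coh.wtf q (α i) : ℤ) : ℝ) = ((2 * (a i : ℤ) : ℤ) : ℝ) := by
      push_cast
      linarith
    exact_mod_cast h5
  refine ⟨fun β hβ => ?_, fun c => ?_⟩
  · rw [← hα β] at hβ
    have : Nonempty {i // α i = β} := by
      by_contra hcon
      rw [not_nonempty_iff] at hcon
      exact hβ Nat.card_of_isEmpty
    obtain ⟨i, rfl⟩ := this
    refine ⟨a i, ?_, ?_, hva i⟩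
    · rw [← ha (a i)]
      have : Nonempty {j // a j = a i} := ⟨⟨i, rfl⟩⟩
      exact Nat.card_pos.ne'
    · obtain ⟨w, hw⟩ : ∃ w : ℤ, IsWeilNumber q w (α i) := by
        by_contra hcon
        exact hβ ((hα _).trans (mult_eq_zero hR hcon))
      have h6 := Coh.wtf_eq hq hw
      rw [h2 i] at h6
      rw [h6]
      exact hw
  · obtain ⟨I, _, b, p, hb⟩ := exists_basis hR
    have h3 : (finrank Ω (R.exc q m (2 * (c : ℤ) - m)) : ℝ) =
        ∑ᶠ x : Ω, (if Coh.wtf q x = 2 * (c : ℤ) then (1 : ℝ) else 0) * (mult R m x : ℝ) := by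
      rw [finsum_mult hR hb m (fun x => if Coh.wtf q x = 2 * (c : ℤ) then (1 : ℝ) else 0),
        finrank_exc hq hR hb, Finset.sum_boole]
      congr 1
      have e : Nat.card {i // ((p i).1, Coh.wtf q (p i).2 - ((p i).1 : ℤ)) =
          (m, 2 * (c : ℤ) - m)} =
          Nat.card {i : {i // (p i).1 = m} // Coh.wtf q (p i.1).2 = 2 * (c : ℤ)} := by
        refine Nat.card_congr ?_
        refine (Equiv.subtypeEquivRight fun i => ?_).trans
          (Equiv.subtypeSubtypeEquivSubtypeInter (fun i => (p i).1 = m)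
            (fun i => Coh.wtf q (p i).2 = 2 * (c : ℤ))).symm
        rw [Prod.ext_iff]
        constructor
        · rintro ⟨h1, h2⟩
          simp only at h1 h2
          refine ⟨h1, ?_⟩
          rw [h1] at h2
          linarith
        · rintro ⟨h1, h2⟩
          refine ⟨h1, ?_⟩
          simp only
          rw [h1, h2]
      rw [e, Nat.card_eq_fintype_card, Fintype.card_subtype]
    have h4 : ∑ᶠ x : Ω, (if Coh.wtf q x = 2 * (c : ℤ) then (1 : ℝ) else 0) * (mult R m x : ℝ) =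
        (hdg c : ℝ) := by
      have h5 := finsum_fib α (fun x => if Coh.wtf q x = 2 * (c : ℤ) then (1 : ℝ) else 0)
      rw [finsum_congr (fun x => by rw [hα x])] at h5
      rw [h5, Finset.sum_boole, ← ha c, Nat.card_eq_fintype_card, Fintype.card_subtype]
      congr 2
      ext i
      simp only [Finset.mem_filter, Finset.mem_univ, true_and]
      rw [h2 i]
      omega
    rw [h4] at h3
    exact_mod_cast h3

/-- Maximal monodromy in several degrees. -/
theorem maximalS (hq : 1 < q) (hR : R.IsCoh q) {S : Finset ℕ} (hrat : RationalPoly (charS R S))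
    {val : Ω → ℝ} (hv : IsVal q val) {hdg : ℕ → ℕ → ℕ}
    (h : ∀ m ∈ S, NewtonAboveHodge R val m (hdg m))
    (hmax : ∑ m ∈ S, hodgeMoment m (hdg m) ≤ ∑ m ∈ S, R.rankMoment m) :
    ∀ m ∈ S, R.MWPure q m ∧ (∀ α, mult R m α ≠ 0 → ∃ a : ℕ, hdg m a ≠ 0 ∧
      IsWeilNumber q (2 * (a : ℤ)) α ∧ val α = a) ∧
      ∀ a : ℕ, finrank Ω (R.exc q m (2 * (a : ℤ) - m)) = hdg m a := by
  classical
  obtain ⟨s1, s2, s3⟩ := sandwichS hq hR hrat hv h
  have hmax' : ∑ m ∈ S, (hodgeMoment m (hdg m) : ℝ) ≤ ∑ m ∈ S, (R.rankMoment m : ℝ) := by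
    exact_mod_cast hmax
  have s1' : ∑ m ∈ S, (R.rankMoment m : ℝ) ≤ ∑ m ∈ S, (R.weightMoment q m : ℝ) := by
    exact_mod_cast s1
  have e1 : ∑ m ∈ S, R.rankMoment m = ∑ m ∈ S, R.weightMoment q m := by
    have : ∑ m ∈ S, (R.rankMoment m : ℝ) = ∑ m ∈ S, (R.weightMoment q m : ℝ) := by linarith
    exact_mod_cast this
  have e2 : ∑ m ∈ S, newtonMoment R val m = ∑ m ∈ S, (R.weightMoment q m : ℝ) := by linarith
  have e3 : ∑ m ∈ S, newtonMoment R val m = ∑ m ∈ S, (hodgeMoment m (hdg m) : ℝ) := by linarith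
  have e4 : ∀ m ∈ S, newtonMoment R val m = (hodgeMoment m (hdg m) : ℝ) :=
    (Finset.sum_eq_sum_iff_of_le fun m hm => (newton_le_hodge (h m hm)).1).1 e3
  have e5 : ∑ m ∈ S, ∑ᶠ α : Ω, (2 * val α - Coh.wtf q α) ^ 2 * (mult R m α : ℝ) = 0 := by
    have := newton_eqS hq hR hrat hv
    linarith
  have e6 := (Finset.sum_eq_zero_iff_of_nonneg (fun m _ => finsum_nonneg fun α =>
    mul_nonneg (sq_nonneg _) (Nat.cast_nonneg _))).1 e5
  intro m hm
  exact ⟨(rankS_le hq hR S).2.1 e1 m hm, extremal hq hR (h m hm) (e4 m hm) (e6 m hm)⟩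

/-- The degrees in `S` are of one parity and at most `k`, and the cohomology in the other degrees
`j ≤ k` is good: the characteristic polynomial of `F` on `H^j` has rational coefficients, or all the
eigenvalues of `F` on `H^j` are powers of `q`. -/
structure Remaining (R : Coh.{v, w} Ω) (q k : ℕ) (S : Finset ℕ) : Prop where
  le : ∀ m ∈ S, m ≤ k
  parity : ∀ m ∈ S, ∀ m' ∈ S, (Even m ↔ Even m')
  good : ∀ j, j ≤ k → j ∉ S →
    RationalPoly (charP R j) ∨ ∀ α, mult R j α ≠ 0 → ∃ i : ℕ, α = (q : Ω) ^ i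

omit [IsAlgClosed Ω] in
lemma rational_remaining (hR : R.IsCoh q) {k : ℕ} {S : Finset ℕ} (h : AltRational R k)
    (hS : Remaining R q k S) : RationalPoly (charS R S) := by
  classical
  obtain ⟨P, Q, hP0, hQ0, ⟨P', rfl⟩, ⟨Q', rfl⟩, hPQ⟩ := h
  have hg : ∀ j, ∃ G : ℚ[X], j ≤ k → j ∉ S → G ≠ 0 ∧ charP R j = G.map (algebraMap ℚ Ω) := by
    intro j
    by_cases hj : j ≤ k ∧ j ∉ S
    · have h1 : RationalPoly (charP R j) := by
        rcases hS.good j hj.1 hj.2 with h1 | h1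
        · exact h1
        · exact rational_of_tate h1
      obtain ⟨G, hG⟩ := h1
      refine ⟨G, fun _ _ => ⟨?_, hG⟩⟩
      rintro rfl
      rw [Polynomial.map_zero] at hG
      exact charP_ne_zero hR j hG
    · exact ⟨0, fun h1 h2 => absurd ⟨h1, h2⟩ hj⟩
  choose G hG using hg
  have hP' : P' ≠ 0 := by
    rintro rfl
    exact hP0 (Polynomial.map_zero _)
  have hQ' : Q' ≠ 0 := by
    rintro rfl
    exact hQ0 (Polynomial.map_zero _)
  rcases S.eq_empty_or_nonempty with rfl | ⟨m0, hm0⟩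
  · exact ⟨1, by simp [charS]⟩
  · exact ⟨_, charS_eq hP' hQ' hPQ (fun j h1 h2 => (hG j h1 h2).1)
      (fun j h1 h2 => (hG j h1 h2).2) hS.le (fun m hm => hS.parity m hm m0 hm0)⟩

end Pool.Agent.V2450.WM
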