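import Pool.Agent.V2450.WM.Max

/-!
# Two theories with the same characteristic polynomials
-/

set_option autoImplicit false

open Module Polynomial

namespace Pool.Agent.V2450.WM

universe u v w v' w'

open Pool.Agent.Y143 Pool.Agent.Y163.MW Pool.Agent.Y163.MX

section

variable {Ω : Type w} [Field Ω] [CharZero Ω] [IsAlgClosed Ω] {R : Coh.{v, w} Ω} {q : ℕ}

/-- The eigenvalues if the weight moment is maximal. -/
theorem extremalS (hq : 1 < q) (hR : R.IsCoh q) {S : Finset ℕ} (hrat : RationalPoly (charS R S))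
    {val : Ω → ℝ} (hv : IsVal q val) {hdg : ℕ → ℕ → ℕ}
    (h : ∀ m ∈ S, NewtonAboveHodge R val m (hdg m))
    (hmax : ∑ m ∈ S, hodgeMoment m (hdg m) ≤ ∑ m ∈ S, R.weightMoment q m) :
    ∀ m ∈ S, (∀ α, mult R m α ≠ 0 → ∃ a : ℕ, hdg m a ≠ 0 ∧
      IsWeilNumber q (2 * (a : ℤ)) α ∧ val α = a) ∧
      ∀ a : ℕ, finrank Ω (R.exc q m (2 * (a : ℤ) - m)) = hdg m a := by
  classical
  obtain ⟨s1, s2, s3⟩ := sandwichS hq hR hrat hv h
  have hmax' : ∑ m ∈ S, (hodgeMoment m (hdg m) : ℝ) ≤ ∑ m ∈ S, (R.weightMoment q m : ℝ) := by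
    exact_mod_cast hmax
  have e2 : ∑ m ∈ S, newtonMoment R val m = ∑ m ∈ S, (R.weightMoment q m : ℝ) := by linarith
  have e3 : ∑ m ∈ S, newtonMoment R val m = ∑ m ∈ S, (hodgeMoment m (hdg m) : ℝ) := by linarith
  have e4 : ∀ m ∈ S, newtonMoment R val m = (hodgeMoment m (hdg m) : ℝ) :=
    (Finset.sum_eq_sum_iff_of_le fun m hm => (newton_le_hodge (h m hm)).1).1 e3
  have e5 : ∑ m ∈ S, ∑ᶠ α : Ω, (2 * val α - Coh.wtf q α) ^ 2 * (mult R m α : ℝ) = 0 := by
    have := newton_eqS hq hR hrat hv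
    linarith
  have e6 := (Finset.sum_eq_zero_iff_of_nonneg (fun m _ => finsum_nonneg fun α =>
    mul_nonneg (sq_nonneg _) (Nat.cast_nonneg _))).1 e5
  intro m hm
  exact extremal hq hR (h m hm) (e4 m hm) (e6 m hm)

end

section

variable {Ω : Type w} [Field Ω] [CharZero Ω] [IsAlgClosed Ω] {R : Coh.{v, w} Ω} {q : ℕ}
  {Ω' : Type w'} [Field Ω'] [CharZero Ω'] [IsAlgClosed Ω'] {R' : Coh.{v', w'} Ω'}

/-- The weight moments of two theories with the same characteristic polynomial in the degrees in `S`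
and the same Betti numbers agree. -/
theorem weightS_congr (hq : 1 < q) (hR : R.IsCoh q) (hR' : R'.IsCoh q) {S : Finset ℕ} {P : ℚ[X]}
    (hP : charS R S = P.map (algebraMap ℚ Ω)) (hP' : charS R' S = P.map (algebraMap ℚ Ω'))
    (hb : ∀ m, finrank Ω (R.gr m) = finrank Ω' (R'.gr m)) :
    ∑ m ∈ S, R.weightMoment q m = ∑ m ∈ S, R'.weightMoment q m := by
  have h1 := weightS_eq hq hR hP
  have h2 := weightS_eq hq hR' hP'
  simp only [hb] at h1
  rw [← h2] at h1
  exact_mod_cast h1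

/-- The numbers of the weights agree. -/
theorem weightsS_congr (hq : 1 < q) (hR : R.IsCoh q) (hR' : R'.IsCoh q) {S : Finset ℕ} {P : ℚ[X]}
    (hP : charS R S = P.map (algebraMap ℚ Ω)) (hP' : charS R' S = P.map (algebraMap ℚ Ω'))
    (c : ℤ) :
    ∑ m ∈ S, finrank Ω (R.exc q m (c - m)) = ∑ m ∈ S, finrank Ω' (R'.exc q m (c - m)) := by
  have h1 := weightsS_eq hq hR hP c
  have h2 := weightsS_eq hq hR' hP' c
  rw [← h2] at h1
  exact_mod_cast h1

end

section

variable {Ω : Type w} [Field Ω] [CharZero Ω] {R : Coh.{v, w} Ω} {q : ℕ}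
  {Ω' : Type w'} [Field Ω'] [CharZero Ω'] {R' : Coh.{v', w'} Ω'}

/-- The degrees in `S` are of one parity and at most `k`, and in the other degrees `j ≤ k` the
characteristic polynomials of the Frobenius in the two theories are one and the same polynomial with
rational coefficients. -/
structure RemainingPair (R : Coh.{v, w} Ω) (R' : Coh.{v', w'} Ω') (k : ℕ) (S : Finset ℕ) :
    Prop where
  le : ∀ m ∈ S, m ≤ k
  parity : ∀ m ∈ S, ∀ m' ∈ S, (Even m ↔ Even m')
  good : ∀ j, j ≤ k → j ∉ S →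
    ∃ G : ℚ[X], charP R j = G.map (algebraMap ℚ Ω) ∧ charP R' j = G.map (algebraMap ℚ Ω')

/-- The relation between the products of the characteristic polynomials of the Frobenius in the even
and in the odd degrees is the same in the two theories. -/
def SameAlt (R : Coh.{v, w} Ω) (R' : Coh.{v', w'} Ω') (k : ℕ) : Prop :=
  ∃ P Q : ℚ[X], P ≠ 0 ∧ Q ≠ 0 ∧ Alt R k P Q ∧ Alt R' k P Q

/-- The product of the remaining characteristic polynomials is one rational polynomial. -/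
theorem common (hR : R.IsCoh q) {k : ℕ} {S : Finset ℕ} (h : SameAlt R R' k)
    (hS : RemainingPair R R' k S) : ∃ P : ℚ[X], charS R S = P.map (algebraMap ℚ Ω) ∧
      charS R' S = P.map (algebraMap ℚ Ω') := by
  classical
  obtain ⟨P, Q, hP, hQ, h1, h2⟩ := h
  have hg : ∀ j, ∃ G : ℚ[X], j ≤ k → j ∉ S → G ≠ 0 ∧ charP R j = G.map (algebraMap ℚ Ω) ∧
      charP R' j = G.map (algebraMap ℚ Ω') := by
    intro j
    by_cases hj : j ≤ k ∧ j ∉ S
    · obtain ⟨G, hG, hG'⟩ := hS.good j hj.1 hj.2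
      refine ⟨G, fun _ _ => ⟨?_, hG, hG'⟩⟩
      rintro rfl
      rw [Polynomial.map_zero] at hG
      exact charP_ne_zero hR j hG
    · exact ⟨0, fun h1 h2 => absurd ⟨h1, h2⟩ hj⟩
  choose G hG using hg
  rcases S.eq_empty_or_nonempty with rfl | ⟨m0, hm0⟩
  · exact ⟨1, by simp [charS], by simp [charS]⟩
  · exact ⟨_, charS_eq hP hQ h1 (fun j h1 h2 => (hG j h1 h2).1)
      (fun j h1 h2 => (hG j h1 h2).2.1) hS.le (fun m hm => hS.parity m hm m0 hm0),
      charS_eq hP hQ h2 (fun j h1 h2 => (hG j h1 h2).1)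
      (fun j h1 h2 => (hG j h1 h2).2.2) hS.le (fun m hm => hS.parity m hm m0 hm0)⟩

end

end Pool.Agent.V2450.WM
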