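import Pool.Agent.V2450.WM.Pair
import Pool.Agent.V1157.MW.Law

/-!
# The kernel of `N` on the cohomology of the powers, for different primes
-/

set_option autoImplicit false

open Module Filter Topology

namespace Pool.Agent.V2450.WM

universe u v w v' w'

open Pool.Agent.Y143 Pool.Agent.H914 Pool.Agent.Y163.MW Pool.Agent.Y163.MX
  Pool.Agent.Y163.MW.Coh Pool.Agent.V1157.MW

section

variable {Ω : Type w} [Field Ω] [CharZero Ω] [IsAlgClosed Ω] {R : Coh.{v, w} Ω} {q : ℕ}

/-- The total weight moment is the sum over the degrees. -/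
theorem totWeight_sum (hq : 1 < q) (hR : R.IsCoh q) {k : ℕ} (hk : ∀ m, k < m → R.gr m = ⊥) :
    R.totWeightMoment q = ∑ m ∈ Finset.range (k + 1), R.weightMoment q m := by
  classical
  obtain ⟨I, _, b, p, hb⟩ := exists_basis hR
  have hpk : ∀ i, (p i).1 ∈ Finset.range (k + 1) := by
    intro i
    rw [Finset.mem_range]
    by_contra hcon
    have h1 := (Submodule.mem_inf.1 (hb i)).1
    rw [hk _ (by omega), Submodule.mem_bot] at h1
    exact b.ne_zero i h1
  have h1 : R.totWeightMoment q = ∑ i, (Coh.wtf q (p i).2 - ((p i).1 : ℤ)) ^ 2 := by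
    rw [← finsum_card (fun i : I => Coh.wtf q (p i).2 - ((p i).1 : ℤ)) (fun c => c ^ 2)]
    unfold Coh.totWeightMoment squareSum
    refine finsum_congr fun c => ?_
    rw [finrank_gr (indep_tot hq hR) b (fun i => Coh.wtf q (p i).2 - ((p i).1 : ℤ))
      (fun i => exc_le_tot (p i).1 _ (mem_exc_p hq hR hb i)) c]
  rw [h1, ← Finset.sum_fiberwise_of_maps_to (s := Finset.univ) (t := Finset.range (k + 1))
    (g := fun i => (p i).1) (fun i _ => hpk i)]
  refine Finset.sum_congr rfl fun m _ => ?_
  rw [weightMoment_eq hq hR hb, Finset.sum_filter]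
  rw [← Finset.sum_filter, Finset.sum_subtype (p := fun i => (p i).1 = m)]
  · refine Finset.sum_congr rfl fun i _ => ?_
    rw [i.2]
  · intro i
    simp

/-- The dimension of the cohomology is the sum of the Betti numbers. -/
theorem finrank_sum (hR : R.IsCoh q) {k : ℕ} (hk : ∀ m, k < m → R.gr m = ⊥) :
    finrank Ω R.V = ∑ m ∈ Finset.range (k + 1), finrank Ω (R.gr m) := by
  classical
  obtain ⟨I, _, b, p, hb⟩ := exists_basis hR
  have hpk : ∀ i, (p i).1 ∈ Finset.range (k + 1) := by
    intro i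
    rw [Finset.mem_range]
    by_contra hcon
    have h1 := (Submodule.mem_inf.1 (hb i)).1
    rw [hk _ (by omega), Submodule.mem_bot] at h1
    exact b.ne_zero i h1
  rw [finrank_eq_card_basis b, ← Finset.card_univ,
    Finset.card_eq_sum_card_fiberwise (s := Finset.univ) (t := Finset.range (k + 1))
    (f := fun i => (p i).1) (fun i _ => hpk i)]
  refine Finset.sum_congr rfl fun m _ => ?_
  rw [finrank_gr (hR.isInternal.submodule_iSupIndep) b (fun i => (p i).1)
    (fun i => (Submodule.mem_inf.1 (hb i)).1) m, Nat.card_eq_fintype_card, Fintype.card_subtype]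

end

section

variable {K : Type u} [Field K] {Ω : Type w} [Field Ω] [CharZero Ω] [IsAlgClosed Ω]
  {T : Theory.{u, v, w} K Ω} {q : ℕ}

/-- The sum of the squares of the centres is positive if `N ≠ 0`. -/
lemma lim_inv (hT : T.IsLocal q) (hq : 1 < q) (X : SmVar.{u} K) (hN : (T.H X).N ≠ 0) :
    Tendsto (fun n : ℕ => √((n + 1 : ℕ) : ℝ) * (((T.H (pow X n)).inv : ℝ) /
      (finrank Ω (T.H X).V : ℝ) ^ (n + 1))) atTop
      (𝓝 (√(2 * (finrank Ω (T.H X).V : ℝ) / (Real.pi * ((T.H X).totRankMoment : ℝ))))) := by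
  obtain ⟨S⟩ := exists_strings hq (hT.coh X)
  have H := adp_strings S
  rw [totRank_eq S, H.finrank_eq]
  obtain ⟨s, hs⟩ := exists_len S hN
  have ha2 : ∃ p p', S.ct p = S.ct p' + 2 := by
    refine ⟨⟨s, ⟨0, by omega⟩⟩, ⟨s, ⟨1, by omega⟩⟩, ?_⟩
    unfold Strings.ct
    simp
  have ha : ∀ r : ℤ, Nat.card {p // S.ct p = r} = Nat.card {p // S.ct p = -r} := by
    intro r
    let E : S.P ≃ S.P := Equiv.sigmaCongrRight fun s => Fin.revPerm
    refine Nat.card_congr (E.subtypeEquiv ?_)
    rintro ⟨s, i⟩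
    have hE : S.ct (E ⟨s, i⟩) = -S.ct ⟨s, i⟩ := by
      show (S.len s : ℤ) - 2 * ((Fin.rev i : Fin (S.len s + 1)) : ℕ) =
        -((S.len s : ℤ) - 2 * (i : ℕ))
      rw [Fin.val_rev]
      have := i.2
      omega
    rw [hE]
    omega
  have h1 := (tendsto_add_atTop_iff_nat 1).2 (lim_count S.ct ha ha2)
  have e : ((∑ p, S.ct p ^ 2 : ℤ) : ℝ) = ∑ p, (S.ct p : ℝ) ^ 2 := by push_cast; rfl
  rw [e]
  refine h1.congr fun n => ?_
  have Hn := adp_pow hT hq X H n
  rw [Hn.inv_eq Pool.Agent.V1157.MW.b1]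

/-- The case `N = 0`. -/
lemma inv_of_zero (hT : T.IsLocal q) (hq : 1 < q) (X : SmVar.{u} K) (hN : (T.H X).N = 0)
    (n : ℕ) : (T.H (pow X n)).inv = finrank Ω (T.H X).V ^ (n + 1) := by
  classical
  obtain ⟨S⟩ := exists_strings hq (hT.coh X)
  have H := adp_strings S
  have hlen : ∀ s, S.len s = 0 := by
    intro s
    by_contra hcon
    have h1 := S.succ s (⟨0, by omega⟩ : Fin (S.len s))
    have h2 : (T.H X).N (S.b ⟨s, (⟨0, by omega⟩ : Fin (S.len s)).castSucc⟩) = 0 := by
      have h3 : ∀ x, (T.H X).N x = 0 := fun x => by rw [hN]; rfl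
      exact h3 _
    exact S.b.ne_zero _ (h1.symm.trans h2)
  have hct : ∀ p, S.ct p = 0 := by
    intro p
    unfold Strings.ct
    have h1 := p.2.2
    have h2 := hlen p.1
    omega
  have Hn := adp_pow hT hq X H n
  rw [Hn.inv_eq Pool.Agent.V1157.MW.b1, H.finrank_eq]
  have h3 : Nat.card {g : Fin (n + 1) → S.P // ∑ k, S.ct (g k) = 0 ∨ ∑ k, S.ct (g k) = 1} =
      Nat.card (Fin (n + 1) → S.P) :=
    Nat.card_congr (Equiv.subtypeUnivEquiv (fun g => Or.inl (Finset.sum_eq_zero
      fun k _ => hct (g k))))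
  rw [h3, Nat.card_eq_fintype_card, Fintype.card_fun, Fintype.card_fin]

omit [IsAlgClosed Ω] in
lemma totRank_of_zero (X : SmVar.{u} K) (hN : (T.H X).N = 0) :
    (T.H X).totRankMoment = 0 := by
  rw [rankSum_top, hN]
  rw [finsum_eq_zero_of_forall_eq_zero]
  intro k
  rcases Nat.eq_zero_or_pos k with rfl | hk
  · simp
  · rw [zero_pow (by omega), LinearMap.range_zero, finrank_bot]
    simp

end

section

variable {K : Type u} [Field K] {Ω : Type w} [Field Ω] [CharZero Ω] [IsAlgClosed Ω]
  {T : Theory.{u, v, w} K Ω} {q : ℕ} {Ω' : Type w'} [Field Ω'] [CharZero Ω'] [IsAlgClosed Ω']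
  {T' : Theory.{u, v', w'} K Ω'}

/-- The ratio for two theories: both monodromy operators are nonzero. -/
theorem ratio_lim (hT : T.IsLocal q) (hT' : T'.IsLocal q) (hq : 1 < q) (X : SmVar.{u} K)
    (hb : finrank Ω (T.H X).V = finrank Ω' (T'.H X).V) (hb0 : 0 < finrank Ω (T.H X).V)
    (hN : (T.H X).N ≠ 0) (hN' : (T'.H X).N ≠ 0) :
    Tendsto (fun n : ℕ => ((T.H (pow X n)).inv : ℝ) / ((T'.H (pow X n)).inv : ℝ)) atTop
      (𝓝 (√(((T'.H X).totRankMoment : ℝ) / ((T.H X).totRankMoment : ℝ)))) := by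
  have h1 := lim_inv hT hq X hN
  have h2 := lim_inv hT' hq X hN'
  rw [← hb] at h2
  have hR : (0 : ℝ) < (T.H X).totRankMoment := by
    exact_mod_cast totRank_pos hq (hT.coh X) hN
  have hR' : (0 : ℝ) < (T'.H X).totRankMoment := by
    exact_mod_cast totRank_pos hq (hT'.coh X) hN'
  have hbR : (0 : ℝ) < finrank Ω (T.H X).V := by exact_mod_cast hb0
  have hpi := Real.pi_pos
  have hne : √(2 * (finrank Ω (T.H X).V : ℝ) / (Real.pi * ((T'.H X).totRankMoment : ℝ))) ≠ 0 :=
    (Real.sqrt_pos.2 (div_pos (by positivity) (mul_pos hpi hR'))).ne'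
  have h3 := h1.div h2 hne
  have hlim : √(2 * (finrank Ω (T.H X).V : ℝ) / (Real.pi * ((T.H X).totRankMoment : ℝ))) /
      √(2 * (finrank Ω (T.H X).V : ℝ) / (Real.pi * ((T'.H X).totRankMoment : ℝ))) =
      √(((T'.H X).totRankMoment : ℝ) / ((T.H X).totRankMoment : ℝ)) := by
    rw [← Real.sqrt_div (div_nonneg (by positivity) (mul_pos hpi hR).le)]
    congr 1
    field_simp
  rw [hlim] at h3
  refine h3.congr fun n => ?_
  have hn : √((n + 1 : ℕ) : ℝ) ≠ 0 := (Real.sqrt_pos.2 (by positivity)).ne'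
  have hbn : (finrank Ω (T.H X).V : ℝ) ^ (n + 1) ≠ 0 := by positivity
  simp only [Pi.div_apply]
  rw [mul_div_mul_left _ _ hn, div_div_div_cancel_right₀ hbn]

/-- The ratio for two theories: one of the monodromy operators is zero. -/
theorem ratio_zero (hT : T.IsLocal q) (hT' : T'.IsLocal q) (hq : 1 < q) (X : SmVar.{u} K)
    (hb : finrank Ω (T.H X).V = finrank Ω' (T'.H X).V)
    (hN : (T.H X).N = 0) (hN' : (T'.H X).N ≠ 0) :
    Tendsto (fun n : ℕ => ((T'.H (pow X n)).inv : ℝ) / ((T.H (pow X n)).inv : ℝ)) atTop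
      (𝓝 0) := by
  have h2 := lim_inv hT' hq X hN'
  rw [← hb] at h2
  have h4 : Tendsto (fun n : ℕ => (√((n + 1 : ℕ) : ℝ))⁻¹) atTop (𝓝 0) := by
    apply Tendsto.inv_tendsto_atTop
    have h5 : Tendsto (fun n : ℕ => ((n + 1 : ℕ) : ℝ)) atTop atTop :=
      tendsto_natCast_atTop_atTop.comp (tendsto_add_atTop_nat 1)
    exact Real.tendsto_sqrt_atTop.comp h5
  have h5 := h4.mul h2
  rw [zero_mul] at h5
  refine h5.congr fun n => ?_
  have hn : √((n + 1 : ℕ) : ℝ) ≠ 0 := (Real.sqrt_pos.2 (by positivity)).ne'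
  rw [inv_of_zero hT hq X hN n]
  rw [← mul_assoc, inv_mul_cancel₀ hn, one_mul]
  push_cast
  rfl

/-- Equal dimensions infinitely often. -/
theorem frequently_eq (hT : T.IsLocal q) (hT' : T'.IsLocal q) (hq : 1 < q) (X : SmVar.{u} K)
    (hb : finrank Ω (T.H X).V = finrank Ω' (T'.H X).V) (hb0 : 0 < finrank Ω (T.H X).V)
    (h : ∃ᶠ n in atTop, (T.H (pow X n)).inv = (T'.H (pow X n)).inv) :
    (T.H X).totRankMoment = (T'.H X).totRankMoment := by
  have hbR : (0 : ℝ) < finrank Ω (T.H X).V := by exact_mod_cast hb0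
  by_cases hN : (T.H X).N = 0
  · by_cases hN' : (T'.H X).N = 0
    · rw [totRank_of_zero X hN, totRank_of_zero X hN']
    · exfalso
      have h1 := ratio_zero hT hT' hq X hb hN hN'
      have h2 := (h1.eventually_lt_const (show (0 : ℝ) < 1 by norm_num)).and_frequently h
      obtain ⟨n, h3, h4⟩ := h2.exists
      have h5 : ((T.H (pow X n)).inv : ℝ) ≠ 0 := by
        rw [inv_of_zero hT hq X hN n]
        push_cast
        positivity
      rw [← h4, div_self h5] at h3
      linarith
  · by_cases hN' : (T'.H X).N = 0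
    · exfalso
      have h1 := ratio_zero hT' hT hq X hb.symm hN' hN
      have h2 := (h1.eventually_lt_const (show (0 : ℝ) < 1 by norm_num)).and_frequently h
      obtain ⟨n, h3, h4⟩ := h2.exists
      have h5 : ((T'.H (pow X n)).inv : ℝ) ≠ 0 := by
        rw [inv_of_zero hT' hq X hN' n, ← hb]
        push_cast
        positivity
      rw [h4, div_self h5] at h3
      linarith
    · have h1 := ratio_lim hT hT' hq X hb hb0 hN hN'
      have hR : (0 : ℝ) < (T.H X).totRankMoment := by
        exact_mod_cast totRank_pos hq (hT.coh X) hN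
      have h2 := lim_inv hT hq X hN
      have hL : (0 : ℝ) < √(2 * (finrank Ω (T.H X).V : ℝ) /
          (Real.pi * ((T.H X).totRankMoment : ℝ))) :=
        Real.sqrt_pos.2 (div_pos (by positivity) (mul_pos Real.pi_pos hR))
      have h3 := h2.eventually_const_lt hL
      by_contra hne
      have h6 : √(((T'.H X).totRankMoment : ℝ) / ((T.H X).totRankMoment : ℝ)) ≠ 1 := by
        intro h7
        rw [Real.sqrt_eq_one, div_eq_one_iff_eq hR.ne'] at h7
        exact hne (by exact_mod_cast h7.symm)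
      have h7 := h1.eventually_ne h6
      obtain ⟨n, ⟨h8, h9⟩, h10⟩ := ((h3.and h7).and_frequently h).exists
      apply h9
      rw [h10]
      apply div_self
      intro h11
      rw [h10, h11] at h8
      simp at h8

/-- If the monodromy-weight conjecture holds for the second theory, and the kernel of `N` for the
first theory is infinitely often not larger, then the conjecture holds for the first theory. -/
theorem pure_of_frequently (hT : T.IsLocal q) (hT' : T'.IsLocal q) (hq : 1 < q) (X : SmVar.{u} K)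
    (hb : finrank Ω (T.H X).V = finrank Ω' (T'.H X).V) (hb0 : 0 < finrank Ω (T.H X).V)
    (hW : (T.H X).totWeightMoment q = (T'.H X).totWeightMoment q)
    (hp : ∀ m, (T'.H X).MWPure q m)
    (h : ∃ᶠ n in atTop, (T.H (pow X n)).inv ≤ (T'.H (pow X n)).inv) :
    ∀ m, (T.H X).MWPure q m := by
  have hbR : (0 : ℝ) < finrank Ω (T.H X).V := by exact_mod_cast hb0
  obtain ⟨a1, a2⟩ := moment_tot hq (hT.coh X)
  obtain ⟨b1, b2⟩ := moment_tot hq (hT'.coh X)
  rw [← a2]
  by_contra hne
  have hlt : (T.H X).totRankMoment < (T'.H X).totRankMoment := by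
    rw [b2.2 hp, ← hW]
    exact lt_of_le_of_ne a1 hne
  have hN' : (T'.H X).N ≠ 0 := by
    intro h0
    rw [totRank_of_zero X h0] at hlt
    by_cases hN : (T.H X).N = 0
    · rw [totRank_of_zero X hN] at hlt
      omega
    · have := totRank_pos hq (hT.coh X) hN
      omega
  by_cases hN : (T.H X).N = 0
  · have h1 := ratio_zero hT hT' hq X hb hN hN'
    have h2 := (h1.eventually_lt_const (show (0 : ℝ) < 1 by norm_num)).and_frequently h
    obtain ⟨n, h3, h4⟩ := h2.exists
    have h5 : (0 : ℝ) < ((T.H (pow X n)).inv : ℝ) := by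
      rw [inv_of_zero hT hq X hN n]
      push_cast
      positivity
    rw [div_lt_one h5] at h3
    have h6 : ((T.H (pow X n)).inv : ℝ) ≤ ((T'.H (pow X n)).inv : ℝ) := by exact_mod_cast h4
    linarith
  · have h1 := ratio_lim hT hT' hq X hb hb0 hN hN'
    have hR : (0 : ℝ) < (T.H X).totRankMoment := by
      exact_mod_cast totRank_pos hq (hT.coh X) hN
    have hlt' : ((T.H X).totRankMoment : ℝ) < ((T'.H X).totRankMoment : ℝ) := by
      exact_mod_cast hlt
    have h6 : 1 < √(((T'.H X).totRankMoment : ℝ) / ((T.H X).totRankMoment : ℝ)) := by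
      rw [Real.lt_sqrt (by norm_num), one_pow, one_lt_div hR]
      exact hlt'
    have h2 := (h1.eventually_const_lt h6).and_frequently h
    obtain ⟨n, h3, h4⟩ := h2.exists
    have h7 : ((T.H (pow X n)).inv : ℝ) ≤ ((T'.H (pow X n)).inv : ℝ) := by exact_mod_cast h4
    have h8 : ((T.H (pow X n)).inv : ℝ) / ((T'.H (pow X n)).inv : ℝ) ≤ 1 :=
      div_le_one_of_le₀ h7 (Nat.cast_nonneg _)
    linarith

/-- If the monodromy-weight conjecture holds for the second theory, it holds for the first one if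
and only if the dimensions of the kernels of `N` on the powers are asymptotically equal. -/
theorem pure_iff_tendsto (hT : T.IsLocal q) (hT' : T'.IsLocal q) (hq : 1 < q) (X : SmVar.{u} K)
    (hb : finrank Ω (T.H X).V = finrank Ω' (T'.H X).V) (hb0 : 0 < finrank Ω (T.H X).V)
    (hW : (T.H X).totWeightMoment q = (T'.H X).totWeightMoment q)
    (hp : ∀ m, (T'.H X).MWPure q m) :
    (∀ m, (T.H X).MWPure q m) ↔ Tendsto (fun n : ℕ => ((T.H (pow X n)).inv : ℝ) /
      ((T'.H (pow X n)).inv : ℝ)) atTop (𝓝 1) := by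
  have hbR : (0 : ℝ) < finrank Ω (T.H X).V := by exact_mod_cast hb0
  obtain ⟨a1, a2⟩ := moment_tot hq (hT.coh X)
  obtain ⟨b1, b2⟩ := moment_tot hq (hT'.coh X)
  rw [← a2]
  have e0 : (T'.H X).totRankMoment = (T.H X).totWeightMoment q := by rw [b2.2 hp, hW]
  have hbR' : (0 : ℝ) < finrank Ω' (T'.H X).V := by rw [← hb]; exact hbR
  constructor
  · intro h
    have e1 : (T.H X).totRankMoment = (T'.H X).totRankMoment := by rw [h, e0]
    by_cases hN : (T.H X).N = 0
    · have hN' : (T'.H X).N = 0 := by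
        by_contra hN'
        have := totRank_pos hq (hT'.coh X) hN'
        rw [← e1, totRank_of_zero X hN] at this
        omega
      refine tendsto_const_nhds.congr fun n => ?_
      rw [inv_of_zero hT hq X hN, inv_of_zero hT' hq X hN', hb]
      push_cast
      rw [div_self (by positivity)]
    · have hN' : (T'.H X).N ≠ 0 := by
        intro hN'
        have := totRank_pos hq (hT.coh X) hN
        rw [e1, totRank_of_zero X hN'] at this
        omega
      have h1 := ratio_lim hT hT' hq X hb hb0 hN hN'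
      have hR : (0 : ℝ) < (T'.H X).totRankMoment := by
        exact_mod_cast totRank_pos hq (hT'.coh X) hN'
      rw [e1, div_self hR.ne', Real.sqrt_one] at h1
      exact h1
  · intro h
    by_contra hne
    have hlt : (T.H X).totRankMoment < (T'.H X).totRankMoment := by
      rw [e0]
      exact lt_of_le_of_ne a1 hne
    have hN' : (T'.H X).N ≠ 0 := by
      intro h0
      rw [totRank_of_zero X h0] at hlt
      by_cases hN : (T.H X).N = 0
      · rw [totRank_of_zero X hN] at hlt
        omega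
      · have := totRank_pos hq (hT.coh X) hN
        omega
    by_cases hN : (T.H X).N = 0
    · have h1 := ratio_zero hT hT' hq X hb hN hN'
      have h2 := h1.mul h
      rw [zero_mul] at h2
      have h3 := lim_inv hT' hq X hN'
      have hR : (0 : ℝ) < (T'.H X).totRankMoment := by
        exact_mod_cast totRank_pos hq (hT'.coh X) hN'
      have hL : (0 : ℝ) < √(2 * (finrank Ω' (T'.H X).V : ℝ) /
          (Real.pi * ((T'.H X).totRankMoment : ℝ))) :=
        Real.sqrt_pos.2 (div_pos (by positivity) (mul_pos Real.pi_pos hR))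
      have h4 := h3.eventually_const_lt hL
      have h5 := h2.eventually_lt_const (show (0 : ℝ) < 1 by norm_num)
      obtain ⟨n, h6, h7⟩ := (h4.and h5).exists
      have h8 : ((T'.H (pow X n)).inv : ℝ) ≠ 0 := by
        intro h0
        rw [h0] at h6
        simp at h6
      have h9 : ((T.H (pow X n)).inv : ℝ) ≠ 0 := by
        rw [inv_of_zero hT hq X hN n]
        push_cast
        positivity
      rw [div_mul_div_comm, mul_comm, div_self (mul_ne_zero h9 h8)] at h7
      linarith
    · have h1 := ratio_lim hT hT' hq X hb hb0 hN hN'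
      have hR : (0 : ℝ) < (T.H X).totRankMoment := by
        exact_mod_cast totRank_pos hq (hT.coh X) hN
      have h2 := tendsto_nhds_unique h1 h
      rw [Real.sqrt_eq_one, div_eq_one_iff_eq hR.ne'] at h2
      have h3 : (T'.H X).totRankMoment = (T.H X).totRankMoment := by exact_mod_cast h2
      omega

end

end Pool.Agent.V2450.WM
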